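import Mathlib

set_option autoImplicit false

/-!
# [H36 TX Defs] representations over a field, regular matroids, 3-connected matroids
-/

namespace Pool.Agent.H36.TX

/-- the vectors `w g` represent the matroid `M` over the field `F` -/
def IsRep {α : Type} (M : Matroid α) (F : Type) [Field F] {W : Type} [AddCommGroup W] [Module F W]
    (w : α → W) : Prop :=
  ∀ I ⊆ M.E, (M.Indep I ↔ LinearIndepOn F w I)

/-- `M` is representable over the field `F` -/
def Rep {α : Type} (M : Matroid α) (F : Type) [Field F] : Prop :=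
  ∃ (W : Type) (_ : AddCommGroup W) (_ : Module F W) (w : α → W), IsRep M F w

/-- `M` is regular: representable over every field -/
def Regular {α : Type} (M : Matroid α) : Prop :=
  ∀ (F : Type) [Field F], Rep M F

/-- `M` is 3-connected in Tutte's sense: no `k`-separation for `k = 1, 2` -/
def ThreeConn {α : Type} (M : Matroid α) : Prop :=
  ∀ k : ℕ, (k = 1 ∨ k = 2) → ∀ X Y : Set α, X ∪ Y = M.E → Disjoint X Y →
    (k : ℕ∞) ≤ X.encard → (k : ℕ∞) ≤ Y.encard → M.eRank + k ≤ M.eRk X + M.eRk Y

/-- the four elements are different -/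
def Diff4 {α : Type} (e x y z : α) : Prop :=
  e ≠ x ∧ e ≠ y ∧ e ≠ z ∧ x ≠ y ∧ x ≠ z ∧ y ≠ z

end Pool.Agent.H36.TX
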