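import Pool.Agent.H36.TX.Defs

set_option autoImplicit false

/-!
# [H36 TX Dual] representations and 3-connectedness of the dual matroid
-/

namespace Pool.Agent.H36.TX

open Matroid

/-- **the dual of a representable matroid on a finite type is representable** -/
theorem rep_dual {α : Type} [Finite α] (M : Matroid α) (F : Type) [Field F]
    (h : Rep M F) : Rep M✶ F := by
  classical
  have := Fintype.ofFinite α
  obtain ⟨W, _, _, w, hw⟩ := h
  let K : Submodule F (α → F) :=
    { carrier := {c | (∀ g, g ∉ M.E → c g = 0) ∧ ∑ g, c g • w g = 0}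
      add_mem' := by
        rintro a b ⟨ha, ha'⟩ ⟨hb, hb'⟩
        refine ⟨fun g hg => by simp [ha g hg, hb g hg], ?_⟩
        simp only [Pi.add_apply, add_smul, Finset.sum_add_distrib, ha', hb', add_zero]
      zero_mem' := by simp
      smul_mem' := by
        rintro t a ⟨ha, ha'⟩
        refine ⟨fun g hg => by simp [ha g hg], ?_⟩
        simp only [Pi.smul_apply, smul_eq_mul, mul_smul, ← Finset.smul_sum, ha', smul_zero] }
  let wd : α → Module.Dual F K := fun g => (LinearMap.proj g).comp K.subtype
  have hwd : ∀ (g : α) (c : K), wd g c = c.1 g := fun g c => rfl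
  refine ⟨Module.Dual F K, inferInstance, inferInstance, wd, ?_⟩
  intro I hI
  rw [dual_ground] at hI
  constructor
  · intro hId
    rw [dual_indep_iff_exists hI] at hId
    obtain ⟨B, hB, hdis⟩ := hId
    -- for `g ∈ I` an element of `K` with coefficient one at `g` and zero on the rest of `I`
    have key : ∀ g ∈ I, ∃ c : K, c.1 g = 1 ∧ ∀ j ∈ I, j ≠ g → c.1 j = 0 := by
      intro g hg
      have hgB : g ∉ B := fun h => hdis.notMem_of_mem_left hg h
      have hgE : g ∈ M.E := hI hg
      have hBE := hB.subset_ground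
      have hdep : ¬ M.Indep (insert g B) := fun h =>
        hgB (by
          have := hB.eq_of_subset_indep h (Set.subset_insert _ _)
          rw [this]; exact Set.mem_insert _ _)
      have hBi : LinearIndepOn F w B := (hw B hBE).1 hB.indep
      have hspan : w g ∈ Submodule.span F (w '' B) := by
        by_contra hns
        exact hdep ((hw _ (Set.insert_subset hgE hBE)).2 (hBi.insert hns))
      rw [Finsupp.mem_span_image_iff_linearCombination] at hspan
      obtain ⟨l, hl, hlw⟩ := hspan
      have hl0 : ∀ j, j ∉ B → l j = 0 := by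
        intro j hj
        by_contra hne
        exact hj (hl (Finsupp.mem_support_iff.2 hne))
      have hsum : ∑ j, l j • w j = w g := by
        rw [← hlw, Finsupp.linearCombination_apply, Finsupp.sum_fintype]
        intro i; simp
      refine ⟨⟨fun j => (if j = g then 1 else 0) - l j, ?_, ?_⟩, ?_, ?_⟩
      · intro j hj
        have h1 : j ≠ g := fun h => hj (h ▸ hgE)
        have h2 : l j = 0 := hl0 j (fun h => hj (hBE h))
        simp [h1, h2]
      · simp only [sub_smul, Finset.sum_sub_distrib, hsum, ite_smul, one_smul, zero_smul,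
          Finset.sum_ite_eq', Finset.mem_univ, if_true, sub_self]
      · simp [hl0 g hgB]
      · intro j hj hjg
        have h2 : l j = 0 := hl0 j (fun h => hdis.notMem_of_mem_left hj h)
        simp [hjg, h2]
    rw [linearIndepOn_iff']
    intro t a ht hsum i hi
    obtain ⟨c, hc1, hc0⟩ := key i (ht hi)
    have h1 := LinearMap.congr_fun hsum c
    simp only [LinearMap.coe_sum, Finset.sum_apply, LinearMap.smul_apply, hwd,
      LinearMap.zero_apply, smul_eq_mul] at h1
    rw [Finset.sum_eq_single i] at h1
    · simpa [hc1] using h1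
    · intro j hj hji
      rw [hc0 j (ht hj) hji, mul_zero]
    · intro hni; exact absurd hi hni
  · intro hli
    by_contra hId
    rw [dual_indep_iff_exists hI] at hId
    -- a basis of the rest is not a base
    obtain ⟨B, hB⟩ := M.exists_isBasis (M.E \ I) Set.sdiff_subset
    have hBdis : Disjoint I B :=
      Set.disjoint_left.2 fun x hx hxB => (hB.subset hxB).2 hx
    have hnB : ¬ M.IsBase B := fun h => hId ⟨B, h, hBdis⟩
    obtain ⟨B', hB', hBB'⟩ := hB.indep.exists_isBase_superset
    have hne : B ≠ B' := fun h => hnB (h ▸ hB')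
    obtain ⟨g, hgB', hgB⟩ := Set.exists_of_ssubset (hBB'.ssubset_of_ne hne)
    have hgE : g ∈ M.E := hB'.subset_ground hgB'
    have hBE := hB.indep.subset_ground
    have hins : M.Indep (insert g B) :=
      hB'.indep.subset (Set.insert_subset hgB' hBB')
    have hgI : g ∈ I := by
      by_contra hgI
      exact hgB (hB.mem_of_insert_indep ⟨hgE, hgI⟩ hins)
    have hBi : LinearIndepOn F w (insert g B) := (hw _ (Set.insert_subset hgE hBE)).1 hins
    have hgs : w g ∉ Submodule.span F (w '' B) := by
      have := (linearIndepOn_insert hgB).1 hBi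
      exact this.2
    obtain ⟨f, hf, hf0⟩ := Submodule.exists_dual_map_eq_bot_of_notMem hgs inferInstance
    have hf1 : ∀ j ∈ M.E \ I, f (w j) = 0 := by
      intro j hj
      have hjs : w j ∈ Submodule.span F (w '' B) := by
        by_contra hns
        have hjB : j ∉ B := fun h => hns (Submodule.subset_span ⟨j, h, rfl⟩)
        have h1 : LinearIndepOn F w (insert j B) :=
          (LinearIndepOn.insert ((hw B hBE).1 hB.indep) hns)
        exact hjB (hB.mem_of_insert_indep hj ((hw _ (Set.insert_subset hj.1 hBE)).2 h1))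
      have : f (w j) ∈ (Submodule.span F (w '' B)).map f := Submodule.mem_map_of_mem hjs
      rw [hf0] at this
      exact (Submodule.mem_bot F).1 this
    rw [linearIndepOn_iff'] at hli
    have h2 := hli I.toFinset (fun j => f (w j)) (by simp) (by
      ext c
      simp only [LinearMap.coe_sum, Finset.sum_apply, LinearMap.smul_apply, hwd,
        LinearMap.zero_apply, smul_eq_mul]
      have h3 : ∑ j, c.1 j * f (w j) = 0 := by
        have := congrArg f c.2.2
        simpa [map_sum] using this
      rw [← h3]
      rw [← Finset.sum_subset (Finset.subset_univ I.toFinset)]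
      · exact Finset.sum_congr rfl fun j _ => mul_comm _ _
      · intro j _ hj
        rw [Set.mem_toFinset] at hj
        by_cases hjE : j ∈ M.E
        · rw [hf1 j ⟨hjE, hj⟩, mul_zero]
        · rw [c.2.1 j hjE, zero_mul]) g (by simpa using hgI)
    exact hf h2

/-- the dual of a regular matroid on a finite type is regular -/
theorem regular_dual {α : Type} [Finite α] (M : Matroid α) (h : Regular M) : Regular M✶ :=
  fun F _ => rep_dual M F (h F)

/-- **the dual of a 3-connected matroid on a finite type is 3-connected** -/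
theorem three_dual {α : Type} [Finite α] (M : Matroid α) (h : ThreeConn M) :
    ThreeConn M✶ := by
  intro k hk X Y hXY hdis hX hY
  rw [dual_ground] at hXY
  have hXE : X ⊆ M.E := hXY ▸ Set.subset_union_left
  have hYE : Y ⊆ M.E := hXY ▸ Set.subset_union_right
  have h0 := h k hk X Y hXY hdis hX hY
  have h1 := M.eRk_dual_add_eRank X hXE
  have h2 := M.eRk_dual_add_eRank Y hYE
  have hcX : M.E \ X = Y := by
    rw [← hXY, Set.union_sdiff_left]
    exact hdis.sdiff_eq_right
  have hcY : M.E \ Y = X := by
    rw [← hXY, Set.union_sdiff_right]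
    exact hdis.sdiff_eq_left
  rw [hcX] at h1
  rw [hcY] at h2
  have h3 := M.eRank_add_eRank_dual
  rw [← hXY, Set.encard_union_eq hdis] at h3
  have f1 : M.eRank ≠ ⊤ := by
    rw [← Matroid.eRk_ground]
    exact ne_top_of_le_ne_top (Set.toFinite M.E).encard_lt_top.ne (M.eRk_le_encard _)
  have f2 : M✶.eRank ≠ ⊤ := by
    rw [← Matroid.eRk_ground]
    exact ne_top_of_le_ne_top (Set.toFinite M✶.E).encard_lt_top.ne (M✶.eRk_le_encard _)
  have fr : ∀ (N : Matroid α) (Z : Set α), N.eRk Z ≠ ⊤ := fun N Z =>
    ne_top_of_le_ne_top (Set.toFinite Z).encard_lt_top.ne (N.eRk_le_encard _)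
  have fX := (Set.toFinite X).encard_lt_top.ne
  have fY := (Set.toFinite Y).encard_lt_top.ne
  obtain ⟨r, hr⟩ := ENat.ne_top_iff_exists.1 f1
  obtain ⟨s, hs⟩ := ENat.ne_top_iff_exists.1 f2
  obtain ⟨a, ha⟩ := ENat.ne_top_iff_exists.1 (fr M X)
  obtain ⟨b, hb⟩ := ENat.ne_top_iff_exists.1 (fr M Y)
  obtain ⟨a', ha'⟩ := ENat.ne_top_iff_exists.1 (fr M✶ X)
  obtain ⟨b', hb'⟩ := ENat.ne_top_iff_exists.1 (fr M✶ Y)
  obtain ⟨x, hx⟩ := ENat.ne_top_iff_exists.1 fX
  obtain ⟨y, hy⟩ := ENat.ne_top_iff_exists.1 fY
  rw [← hr, ← ha, ← hb] at h0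
  rw [← ha', ← hr, ← hb, ← hx] at h1
  rw [← hb', ← hr, ← ha, ← hy] at h2
  rw [← hr, ← hs, ← hx, ← hy] at h3
  rw [← hs, ← ha', ← hb']
  norm_cast at h0 h1 h2 h3 ⊢
  omega

end Pool.Agent.H36.TX
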