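import Pool.Agent.H36.TX.Delta

set_option autoImplicit false

/-!
# [H36 TX Bin] the contraction `M ／ {e}` of the binary matroid, in terms of `M ＼ {e}`

`v e = v x + v y + v z`, `f` the functional of the cocircuit `{e, x, y, z}`. Modulo `v e` the vectors `dl v x y z g` and
`v g` agree (`v y - v z = v y + v z = v x + v e`), and the `dl v x y z g` lie in the kernel of `f`, which meets the span of
`v e` in `0`. `(M ／ {e}).Indep I ↔ M.Indep (insert e I)` for `I ⊆ M.E \ {e}` (`IsNonloop.contractElem_indep_iff`).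
-/

namespace Pool.Agent.H36.TX

open scoped Matroid
open Set Submodule

theorem bin {α V : Type} [Finite α] [AddCommGroup V] [Module (ZMod 2) V] (M : Matroid α) (v : α → V)
    (hv : IsRep M (ZMod 2) v) (f : V →ₗ[ZMod 2] ZMod 2) {e x y z : α} (hd : Diff4 e x y z)
    (he : e ∈ M.E) (hx : x ∈ M.E) (hy : y ∈ M.E) (hz : z ∈ M.E)
    (hf : ∀ g ∈ M.E, g ≠ e → g ≠ x → g ≠ y → g ≠ z → f (v g) = 0)
    (hfe : f (v e) = 1) (hfx : f (v x) = 1) (hfy : f (v y) = 1) (hfz : f (v z) = 1)
    (hev : v e = v x + v y + v z) :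
    ∀ I ⊆ M.E \ {e}, ((M ／ {e}).Indep I ↔ LinearIndepOn (ZMod 2) (dl v x y z) I) := by
  intro I hI
  have hneg : ∀ u : V, -u = u := fun u => by
    have h : (2 : ZMod 2) = 0 := by decide
    have h2 : u + u = 0 := by
      rw [← two_smul (ZMod 2) u, h, zero_smul]
    exact neg_eq_of_add_eq_zero_left h2
  have hve : v e ≠ 0 := by
    intro h
    rw [h, map_zero] at hfe
    exact zero_ne_one hfe
  have hs : LinearIndepOn (ZMod 2) v {e} := (linearIndepOn_singleton_iff (ZMod 2)).2 hve
  have hnl : M.IsNonloop e := by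
    rw [← Matroid.indep_singleton]
    exact (hv {e} (singleton_subset_iff.2 he)).2 hs
  have heI : e ∉ I := fun h => (hI h).2 rfl
  rw [hnl.contractElem_indep_iff, and_iff_right heI,
    hv _ (insert_subset he (hI.trans sdiff_subset)), ← Set.singleton_union,
    ← hs.quotient_iff_union (t := I) (disjoint_singleton_left.2 heI)]
  have hq : ∀ a b : V, a - b ∈ span (ZMod 2) (v '' {e}) →
      mkQ (span (ZMod 2) (v '' {e})) a = mkQ (span (ZMod 2) (v '' {e})) b := by
    intro a b h
    exact (Submodule.Quotient.eq _).2 h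
  have hmem : v e ∈ span (ZMod 2) (v '' {e}) := subset_span ⟨e, rfl, rfl⟩
  have h2 : EqOn (mkQ (span (ZMod 2) (v '' {e})) ∘ v)
      (mkQ (span (ZMod 2) (v '' {e})) ∘ dl v x y z) I := by
    intro g _
    show mkQ (span (ZMod 2) (v '' {e})) (v g) = mkQ (span (ZMod 2) (v '' {e})) (dl v x y z g)
    unfold dl
    split_ifs with h1 h2 h3
    · refine hq _ _ ?_
      have h4 : v g - (v y - v z) = v e := by
        rw [h1, hev, sub_eq_add_neg, sub_eq_add_neg, hneg (v z), hneg (v y + v z), add_assoc]
      rw [h4]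
      exact hmem
    · refine hq _ _ ?_
      have h4 : v g - (v z - v x) = v e := by
        rw [h2, hev, sub_eq_add_neg, sub_eq_add_neg, hneg (v x), hneg (v z + v x)]
        abel
      rw [h4]
      exact hmem
    · refine hq _ _ ?_
      have h4 : v g - (v x - v y) = v e := by
        rw [h3, hev, sub_eq_add_neg, sub_eq_add_neg, hneg (v y), hneg (v x + v y)]
        abel
      rw [h4]
      exact hmem
    · rfl
  rw [linearIndepOn_congr h2]
  refine LinearMap.linearIndepOn_iff_of_injOn _ ?_
  have hker : ∀ a ∈ span (ZMod 2) (dl v x y z '' I), f a = 0 := by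
    intro a ha
    induction ha using span_induction with
    | mem a ha =>
      obtain ⟨g, hg, rfl⟩ := ha
      unfold dl
      split_ifs with h1 h2 h3
      · rw [map_sub, hfy, hfz, sub_self]
      · rw [map_sub, hfz, hfx, sub_self]
      · rw [map_sub, hfx, hfy, sub_self]
      · exact hf g (hI hg).1 (fun h => heI (h ▸ hg)) h1 h2 h3
    | zero => exact map_zero f
    | add a b _ _ ha hb => rw [map_add, ha, hb, add_zero]
    | smul c a _ ha => rw [map_smul, ha, smul_zero]
  intro a ha b hb hab
  have h3 : a - b ∈ span (ZMod 2) (v '' {e}) := (Submodule.Quotient.eq _).1 hab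
  rw [image_singleton, mem_span_singleton] at h3
  obtain ⟨c, hc⟩ := h3
  have h4 : f (a - b) = 0 := by rw [map_sub, hker a ha, hker b hb, sub_zero]
  rw [← hc, map_smul, hfe, smul_eq_mul, mul_one] at h4
  rw [h4, zero_smul] at hc
  exact (sub_eq_zero.1 hc.symm)

end Pool.Agent.H36.TX
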