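import Pool.Agent.H36.TX.Defs

set_option autoImplicit false

/-!
# [H36 TX Char2] a binary matroid is representable over every field of characteristic two

The span of the vectors has a finite basis; in coordinates with respect to it, a family is linearly independent over `ZMod 2`
iff its image over `F` is (`linearIndependent_algebraMap_comp_iff`).
-/

namespace Pool.Agent.H36.TX

theorem rep_char2 {α : Type} [Finite α] (M : Matroid α) (h : Rep M (ZMod 2)) (F : Type) [Field F]
    (h2 : (2 : F) = 0) : Rep M F := by
  obtain ⟨W, _, _, w, hw⟩ := h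
  have hch : CharP F 2 := CharTwo.of_one_ne_zero_of_two_eq_zero one_ne_zero h2
  let _ : Algebra (ZMod 2) F := ZMod.algebra F 2
  let S : Submodule (ZMod 2) W := Submodule.span (ZMod 2) (Set.range w)
  have hfin : FiniteDimensional (ZMod 2) S :=
    FiniteDimensional.span_of_finite (ZMod 2) (Set.finite_range w)
  let b := Module.finBasis (ZMod 2) S
  let v : α → Fin (Module.finrank (ZMod 2) S) → ZMod 2 := fun i =>
    b.equivFun ⟨w i, Submodule.subset_span ⟨i, rfl⟩⟩
  have hv : ∀ i, (S.subtype ∘ₗ b.equivFun.symm.toLinearMap) (v i) = w i := by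
    intro i
    simp [v]
  have hinj : Function.Injective (S.subtype ∘ₗ b.equivFun.symm.toLinearMap) := by
    rw [LinearMap.coe_comp]
    exact S.injective_subtype.comp b.equivFun.symm.injective
  refine ⟨Fin (Module.finrank (ZMod 2) S) → F, inferInstance, inferInstance,
    fun i => algebraMap (ZMod 2) F ∘ v i, fun I hI => ?_⟩
  rw [hw I hI]
  have h3 : LinearIndepOn F (fun i => algebraMap (ZMod 2) F ∘ v i) I ↔
      LinearIndepOn (ZMod 2) v I :=
    linearIndependent_algebraMap_comp_iff (v := fun i : I => v i)
  rw [h3]
  have h4 : w = (S.subtype ∘ₗ b.equivFun.symm.toLinearMap) ∘ v := funext fun i => (hv i).symm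
  rw [h4]
  exact LinearMap.linearIndependent_iff_of_injOn (v := fun i : I => v i) _ hinj.injOn

end Pool.Agent.H36.TX
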