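import Pool.Agent.H36.TX.Defs

set_option autoImplicit false

/-!
# [H36 TX Circ] a circuit through two elements of a single-element contraction of a 3-connected matroid

Plan. (1) For circuits `C₁, C₂` of a finite matroid `N` with `x ∈ C₁`, `z ∈ C₂` and `C₁ ∩ C₂` nonempty there is a circuit
containing `x` and `z` (Oxley, Prop. 4.1.2: induction on `|C₁ ∪ C₂|`, twice `IsCircuit.strong_elimination`). (2) If no
circuit of `N` contains `x` and `y`, let `S` be the set of all `g` in `N.E` with `g = x` or on a circuit with `x`. Every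
circuit is contained in `S` or in `N.E \ S`, so `N.eRk S + N.eRk (N.E \ S) ≤ N.eRank`. (3) For `N = R ／ {z}`:
`R.eRk (insert z S) + R.eRk (insert z (R.E \ {z} \ S)) ≤ R.eRank + 1`, which is a 2-separation of `R` (drop `z` on one side)
as `R.E` has at least 4 elements.
-/

namespace Pool.Agent.H36.TX

open scoped Matroid

private theorem circ_trans {α : Type} [Finite α] (N : Matroid α) : ∀ (n : ℕ) (C₁ C₂ : Set α) (x z : α),
    (C₁ ∪ C₂).ncard ≤ n → N.IsCircuit C₁ → N.IsCircuit C₂ → x ∈ C₁ → z ∈ C₂ → (C₁ ∩ C₂).Nonempty →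
    ∃ C, N.IsCircuit C ∧ x ∈ C ∧ z ∈ C := by
  intro n
  induction n with
  | zero =>
    intro C₁ C₂ x z hn h1 h2 hx hz hne
    exfalso
    have h0 : (C₁ ∪ C₂) = ∅ := by
      rw [← Set.ncard_eq_zero (Set.toFinite _)]
      omega
    have h3 : x ∈ C₁ ∪ C₂ := Or.inl hx
    rw [h0] at h3
    exact h3
  | succ n ih =>
    intro C₁ C₂ x z hn h1 h2 hx hz hne
    by_cases hx2 : x ∈ C₂
    · exact ⟨C₂, h2, hx2, hz⟩
    by_cases hz1 : z ∈ C₁
    · exact ⟨C₁, h1, hx, hz1⟩
    obtain ⟨y, hy1, hy2⟩ := hne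
    obtain ⟨C₃, h3s, h3, hx3⟩ := h1.strong_elimination h2 hy1 hy2 hx hx2
    have hnot : ¬ C₃ ⊆ C₁ := by
      intro hs
      have h4 : C₃ = C₁ := h3.eq_of_subset_isCircuit h1 hs
      have hy3 : y ∈ C₃ := h4 ▸ hy1
      exact (h3s hy3).2 rfl
    obtain ⟨w, hw3, hw1⟩ := Set.not_subset.mp hnot
    have hw2 : w ∈ C₂ := (h3s hw3).1.resolve_left hw1
    by_cases hz3 : z ∈ C₃
    · exact ⟨C₃, h3, hx3, hz3⟩
    obtain ⟨C₄, h4s, h4, hz4⟩ := h2.strong_elimination h3 hw2 hw3 hz hz3
    have hnot4 : ¬ C₄ ⊆ C₂ := by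
      intro hs
      have h5 : C₄ = C₂ := h4.eq_of_subset_isCircuit h2 hs
      have hw4 : w ∈ C₄ := h5 ▸ hw2
      exact (h4s hw4).2 rfl
    obtain ⟨v, hv4, hv2⟩ := Set.not_subset.mp hnot4
    have hv3 : v ∈ C₃ := (h4s hv4).1.resolve_left hv2
    have hv1 : v ∈ C₁ := (h3s hv3).1.resolve_right hv2
    refine ih C₁ C₄ x z ?_ h1 h4 hx hz4 ⟨v, hv1, hv4⟩
    have hss : C₁ ∪ C₄ ⊂ C₁ ∪ C₂ := by
      refine ⟨?_, ?_⟩
      · intro g hg
        rcases hg with hg | hg
        · exact Or.inl hg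
        · rcases (h4s hg).1 with hg2 | hg3
          · exact Or.inr hg2
          · exact (h3s hg3).1
      · intro hsub
        rcases hsub (Or.inr hw2 : w ∈ C₁ ∪ C₂) with hw | hw
        · exact hw1 hw
        · exact (h4s hw).2 rfl
    have h6 := Set.ncard_lt_ncard hss (Set.toFinite _)
    omega

theorem common_circuit {α : Type} [Finite α] (R : Matroid α) (h3 : ThreeConn R) (h4 : 4 ≤ R.E.encard) {x y z : α}
    (hx : x ∈ R.E) (hy : y ∈ R.E) (hz : z ∈ R.E) (hxy : x ≠ y) (hxz : x ≠ z) (hyz : y ≠ z) :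
    ∃ C, (R ／ {z}).IsCircuit C ∧ x ∈ C ∧ y ∈ C := by
  classical
  by_contra hno
  push Not at hno
  have hfin : R.eRank ≠ ⊤ := by
    have h5 := R.eRank_le_encard_ground
    exact ne_top_of_le_ne_top (Set.toFinite R.E).encard_lt_top.ne h5
  -- `z` is not a loop
  have hzi : R.Indep {z} := by
    rw [Matroid.indep_singleton]
    by_contra hl
    rw [Matroid.not_isNonloop_iff hz] at hl
    have h5 := h3 1 (Or.inl rfl) {z} (R.E \ {z}) (by
      rw [Set.union_sdiff_cancel (Set.singleton_subset_iff.mpr hz)]) Set.disjoint_sdiff_right (by simp) (by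
      have h6 : ({x} : Set α) ⊆ R.E \ {z} := by
        intro g hg
        rw [Set.mem_singleton_iff] at hg
        rw [hg]
        exact ⟨hx, hxz⟩
      have h7 := Set.encard_le_encard h6
      rw [Set.encard_singleton] at h7
      exact_mod_cast h7)
    rw [hl.eRk_eq, zero_add] at h5
    have h6 := h5.trans (R.eRk_le_eRank _)
    have h7 : R.eRank < R.eRank + 1 := ENat.lt_add_one_iff hfin |>.mpr le_rfl
    exact absurd h6 (not_le.mpr (by exact_mod_cast h7))
  set N := R ／ {z} with hN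
  have hNE : N.E = R.E \ {z} := rfl
  set S : Set α := {g | g ∈ N.E ∧ (g = x ∨ ∃ C, N.IsCircuit C ∧ x ∈ C ∧ g ∈ C)} with hS
  have hxS : x ∈ S := ⟨⟨hx, hxz⟩, Or.inl rfl⟩
  have hyS : y ∉ S := by
    rintro ⟨-, h5 | ⟨C, hC, hxC, hyC⟩⟩
    · exact hxy h5.symm
    · exact hno C hC hxC hyC
  have hyN : y ∈ N.E := ⟨hy, hyz⟩
  have hSN : S ⊆ N.E := fun g hg => hg.1
  -- circuits
  have hcirc : ∀ C, N.IsCircuit C → (∃ g ∈ C, g ∈ S) → C ⊆ S := by
    rintro C hC ⟨g, hgC, hgN, hg⟩ h hhC
    refine ⟨hC.subset_ground hhC, Or.inr ?_⟩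
    rcases hg with hg | ⟨D, hD, hxD, hgD⟩
    · exact ⟨C, hC, hg ▸ hgC, hhC⟩
    · exact circ_trans N _ D C x h le_rfl hD hC hxD hhC ⟨g, hgD, hgC⟩
  obtain ⟨I, hI⟩ := N.exists_isBasis S
  obtain ⟨J, hJ⟩ := N.exists_isBasis (N.E \ S)
  have hIJ : N.Indep (I ∪ J) := by
    by_contra hdep
    have hD : N.Dep (I ∪ J) := ⟨hdep, Set.union_subset hI.indep.subset_ground hJ.indep.subset_ground⟩
    obtain ⟨C, hCs, hC⟩ := hD.exists_isCircuit_subset
    by_cases hc : ∃ g ∈ C, g ∈ S
    · have hCS := hcirc C hC hc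
      have hCI : C ⊆ I := by
        intro g hg
        rcases hCs hg with h5 | h5
        · exact h5
        · exact absurd (hCS hg) (hJ.subset h5).2
      exact hC.not_indep (hI.indep.subset hCI)
    · push Not at hc
      have hCJ : C ⊆ J := by
        intro g hg
        rcases hCs hg with h5 | h5
        · exact absurd (hI.subset h5) (hc g hg)
        · exact h5
      exact hC.not_indep (hJ.indep.subset hCJ)
  have hIJR : R.Indep ((I ∪ J) ∪ {z}) := ((hzi.contract_indep_iff).mp hIJ).2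
  have hIR := hzi.union_isBasis_union_of_contract_isBasis hI
  have hJR := hzi.union_isBasis_union_of_contract_isBasis hJ
  have hzN : z ∉ N.E := fun h => h.2 rfl
  have hdI : Disjoint I {z} := Set.disjoint_singleton_right.mpr fun h => hzN (hI.indep.subset_ground h)
  have hdJ : Disjoint J {z} := Set.disjoint_singleton_right.mpr fun h => hzN (hJ.indep.subset_ground h)
  have hdIJ : Disjoint I J := Set.disjoint_left.mpr fun g hg1 hg2 => (hJ.subset hg2).2 (hI.subset hg1)
  have hrS : R.eRk (S ∪ {z}) = I.encard + 1 := by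
    rw [hIR.eRk_eq_encard, Set.encard_union_eq hdI, Set.encard_singleton]
  have hrT : R.eRk ((N.E \ S) ∪ {z}) = J.encard + 1 := by
    rw [hJR.eRk_eq_encard, Set.encard_union_eq hdJ, Set.encard_singleton]
  have hrank : I.encard + J.encard + 1 ≤ R.eRank := by
    have h5 := hIJR.encard_le_eRank
    rwa [Set.encard_union_eq (Set.disjoint_union_left.mpr ⟨hdI, hdJ⟩), Set.encard_union_eq hdIJ,
      Set.encard_singleton] at h5
  have key : ∀ X Y : Set α, X ∪ Y = R.E → Disjoint X Y → (2 : ℕ∞) ≤ X.encard → (2 : ℕ∞) ≤ Y.encard →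
      R.eRk X ≤ I.encard + 1 → R.eRk Y ≤ J.encard + 1 → False := by
    intro X Y hXY hd hX hY h5 h6
    have h7 := h3 2 (Or.inr rfl) X Y hXY hd (by exact_mod_cast hX) (by exact_mod_cast hY)
    have h8 : R.eRank + 2 ≤ R.eRank + 1 := by
      calc R.eRank + 2 ≤ R.eRk X + R.eRk Y := by exact_mod_cast h7
        _ ≤ (I.encard + 1) + (J.encard + 1) := add_le_add h5 h6
        _ = (I.encard + J.encard + 1) + 1 := by ring
        _ ≤ R.eRank + 1 := by gcongr
    have h9 : R.eRank + 1 < R.eRank + 2 := by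
      obtain ⟨k, hk⟩ := ENat.ne_top_iff_exists.mp hfin
      rw [← hk]
      exact_mod_cast Nat.lt_succ_self (k + 1)
    exact absurd h8 (not_le.mpr h9)
  have hunion : S ∪ (N.E \ S) = R.E \ {z} := by
    rw [Set.union_sdiff_cancel hSN, hNE]
  by_cases hT : (2 : ℕ∞) ≤ (N.E \ S).encard
  · refine key (S ∪ {z}) (N.E \ S) ?_ ?_ ?_ hT hrS.le ((R.eRk_mono Set.subset_union_left).trans hrT.le)
    · rw [Set.union_right_comm, hunion, Set.sdiff_union_of_subset (Set.singleton_subset_iff.mpr hz)]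
    · rw [Set.disjoint_union_left]
      exact ⟨Set.disjoint_sdiff_right, Set.disjoint_singleton_left.mpr fun h => hzN h.1⟩
    · have h5 : ({x, z} : Set α) ⊆ S ∪ {z} := by
        intro g hg
        rcases hg with hg | hg
        · exact Or.inl (hg ▸ hxS)
        · exact Or.inr hg
      have h6 := Set.encard_le_encard h5
      rwa [Set.encard_pair hxz] at h6
  · have hT1 : (N.E \ S).encard ≤ 1 := by
      rw [not_le] at hT
      simpa using hT
    refine key S ((N.E \ S) ∪ {z}) ?_ ?_ ?_ ?_ ((R.eRk_mono Set.subset_union_left).trans hrS.le) hrT.le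
    · rw [← Set.union_assoc, hunion, Set.sdiff_union_of_subset (Set.singleton_subset_iff.mpr hz)]
    · rw [Set.disjoint_union_right]
      exact ⟨Set.disjoint_sdiff_right, Set.disjoint_singleton_right.mpr fun h => hzN (hSN h)⟩
    · have h5 : R.E ⊆ S ∪ ((N.E \ S) ∪ {z}) := by
        rw [← Set.union_assoc, hunion, Set.sdiff_union_of_subset (Set.singleton_subset_iff.mpr hz)]
      have h6 := (h4.trans (Set.encard_le_encard h5)).trans (Set.encard_union_le _ _)
      have h7 := Set.encard_union_le (N.E \ S) {z}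
      rw [Set.encard_singleton] at h7
      have h8 : (4 : ℕ∞) ≤ S.encard + 2 := by
        calc (4 : ℕ∞) ≤ S.encard + ((N.E \ S) ∪ {z}).encard := h6
          _ ≤ S.encard + ((N.E \ S).encard + 1) := by gcongr
          _ ≤ S.encard + (1 + 1) := by gcongr
          _ = S.encard + 2 := by norm_num
      have h9 : S.encard ≠ ⊤ := (Set.toFinite S).encard_lt_top.ne
      obtain ⟨k, hk⟩ := ENat.ne_top_iff_exists.mp h9
      rw [← hk] at h8 ⊢
      have h10 : 4 ≤ k + 2 := by exact_mod_cast h8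
      exact_mod_cast (by omega : 2 ≤ k)
    · have h5 : ({y, z} : Set α) ⊆ (N.E \ S) ∪ {z} := by
        intro g hg
        rcases hg with hg | hg
        · exact Or.inl (hg ▸ ⟨hyN, hyS⟩)
        · exact Or.inr hg
      have h6 := Set.encard_le_encard h5
      rwa [Set.encard_pair hyz] at h6

end Pool.Agent.H36.TX
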