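import Pool.Agent.H36.TX.Fun

set_option autoImplicit false

/-!
# [H36 TX Conv] if `y` and `z` are separated in `R ／ {x}`, then `- u x + u y + u z` behaves in the same way over all fields

`u` represents `R` over `K`, `h` is the functional of the triad `{x, y, z}`, `(S, T)` a separation of `R ／ {x}` with `y ∈ S`,
`z ∈ T`.
-/

namespace Pool.Agent.H36.TX

open scoped Matroid

/-- the condition in terms of the matroid -/
def Cond2 {α : Type} (R : Matroid α) (x y z : α) (S T J : Set α) : Prop :=
  y ∈ R.closure (insert x (J ∩ S)) ∧ z ∈ R.closure (insert x (J ∩ T)) ∧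
    (x ∈ R.closure J ∨ (y ∈ J ∧ z ∉ J) ∨ (y ∉ J ∧ z ∈ J))

private theorem sep {α K U : Type} [Finite α] [Field K] [AddCommGroup U] [Module K U] (R : Matroid α) (u : α → U)
    (hu : IsRep R K u) {x : α} (hxi : R.Indep {x}) {S T : Set α} (hST : S ∪ T = (R ／ {x}).E)
    (hdis : Disjoint S T) (hC : ∀ C, (R ／ {x}).IsCircuit C → C ⊆ S ∨ C ⊆ T) {v : U}
    (h1 : v ∈ Submodule.span K (u '' insert x S)) (h2 : v ∈ Submodule.span K (u '' insert x T)) :
    ∃ r : K, v = r • u x := by
  have hxE : x ∈ R.E := hxi.subset_ground rfl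
  have hSN : S ⊆ (R ／ {x}).E := hST ▸ Set.subset_union_left
  have hTN : T ⊆ (R ／ {x}).E := hST ▸ Set.subset_union_right
  have hNE : (R ／ {x}).E = R.E \ {x} := rfl
  obtain ⟨I, hI⟩ := (R ／ {x}).exists_isBasis S
  obtain ⟨J, hJ⟩ := (R ／ {x}).exists_isBasis T
  have hIJ : (R ／ {x}).Indep (I ∪ J) := by
    by_contra hdep
    have hD : (R ／ {x}).Dep (I ∪ J) :=
      ⟨hdep, Set.union_subset hI.indep.subset_ground hJ.indep.subset_ground⟩
    obtain ⟨C, hCs, hC'⟩ := hD.exists_isCircuit_subset
    rcases hC C hC' with hc | hc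
    · have hCI : C ⊆ I := by
        intro g hg
        rcases hCs hg with h5 | h5
        · exact h5
        · exact absurd (hJ.subset h5) (Set.disjoint_left.mp hdis (hc hg))
      exact hC'.not_indep (hI.indep.subset hCI)
    · have hCJ : C ⊆ J := by
        intro g hg
        rcases hCs hg with h5 | h5
        · exact absurd (hc hg) (Set.disjoint_left.mp hdis (hI.subset h5))
        · exact h5
      exact hC'.not_indep (hJ.indep.subset hCJ)
  have hIJR : R.Indep ((I ∪ J) ∪ {x}) := ((hxi.contract_indep_iff).mp hIJ).2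
  have hxN : x ∉ (R ／ {x}).E := fun h => h.2 rfl
  have hspan : ∀ (B X : Set α), X ⊆ R.E → R.IsBasis (B ∪ {x}) (X ∪ {x}) → ∀ v,
      v ∈ Submodule.span K (u '' insert x X) → ∃ r : K, v + r • u x ∈ Submodule.span K (u '' B) := by
    intro B X hX hB v hv
    have h3 : Submodule.span K (u '' insert x X) ≤ Submodule.span K (u '' insert x B) := by
      rw [Submodule.span_le]
      rintro _ ⟨g, hg, rfl⟩
      have hgX : insert x X ⊆ R.E := Set.insert_subset hxE hX
      rw [Set.union_singleton, Set.union_singleton] at hB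
      rw [SetLike.mem_coe, ← mem_closure_iff_span R u hu (hB.indep.subset_ground) (hgX hg), hB.closure_eq_closure]
      exact R.mem_closure_of_mem hg hgX
    have h4 := h3 hv
    rwa [Set.image_insert_eq, Submodule.mem_span_insert'] at h4
  obtain ⟨r, hr⟩ := hspan I S (hSN.trans (hNE ▸ Set.sdiff_subset))
    (hxi.union_isBasis_union_of_contract_isBasis hI) v h1
  obtain ⟨r', hr'⟩ := hspan J T (hTN.trans (hNE ▸ Set.sdiff_subset))
    (hxi.union_isBasis_union_of_contract_isBasis hJ) v h2
  have hdd : Disjoint I (insert x J) := by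
    rw [Set.disjoint_left]
    rintro g hg (h5 | h5)
    · rw [h5] at hg
      exact hxN (hI.indep.subset_ground hg)
    · exact Set.disjoint_left.mp hdis (hI.subset hg) (hJ.subset h5)
  have hli : LinearIndepOn K u (I ∪ insert x J) := by
    have h5 : I ∪ insert x J = (I ∪ J) ∪ {x} := by
      rw [Set.union_singleton, Set.union_insert]
    rw [h5]
    exact (hu _ hIJR.subset_ground).mp hIJR
  have hdisj := ((linearIndepOn_union_iff hdd).mp hli).2.2
  have h6 : v + r • u x ∈ Submodule.span K (u '' insert x J) := by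
    rw [Set.image_insert_eq, Submodule.mem_span_insert']
    refine ⟨r' - r, ?_⟩
    have e : v + r • u x + (r' - r) • u x = v + r' • u x := by module
    rwa [e]
  have h7 := Submodule.disjoint_def.mp hdisj _ hr h6
  refine ⟨-r, ?_⟩
  have e : v = (v + r • u x) + (-r) • u x := by module
  rw [h7, zero_add] at e
  exact e

theorem conv {α K U : Type} [Finite α] [Field K] [AddCommGroup U] [Module K U] (R : Matroid α) (u : α → U)
    (hu : IsRep R K u) (h : U →ₗ[K] K) {x y z : α} (hx : x ∈ R.E) (hy : y ∈ R.E) (hz : z ∈ R.E)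
    (hxy : x ≠ y) (hxz : x ≠ z) (hyz : y ≠ z) (h0 : ∀ g ∈ R.E, g ≠ x → g ≠ y → g ≠ z → h (u g) = 0)
    (hhx : h (u x) = 1) (hhy : h (u y) = 1) (hhz : h (u z) = 1) {S T : Set α} (hST : S ∪ T = (R ／ {x}).E)
    (hdis : Disjoint S T) (hyS : y ∈ S) (hzT : z ∈ T)
    (hC : ∀ C, (R ／ {x}).IsCircuit C → C ⊆ S ∨ C ⊆ T) (J : Set α) (hJ : J ⊆ R.E) :
    - u x + u y + u z ∈ Submodule.span K (u '' J) ↔ Cond2 R x y z S T J := by
  have hSN : S ⊆ (R ／ {x}).E := hST ▸ Set.subset_union_left
  have hTN : T ⊆ (R ／ {x}).E := hST ▸ Set.subset_union_right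
  have hxi : R.Indep {x} := by
    rw [hu _ (Set.singleton_subset_iff.mpr hx), linearIndepOn_singleton_iff]
    intro h1
    rw [h1, map_zero] at hhx
    exact zero_ne_one hhx
  have hxS : x ∉ S := fun h1 => (hSN h1).2 rfl
  have hxT : x ∉ T := fun h1 => (hTN h1).2 rfl
  have hzS : z ∉ S := fun h1 => Set.disjoint_left.mp hdis h1 hzT
  have hyT : y ∉ T := fun h1 => Set.disjoint_left.mp hdis hyS h1
  set US := Submodule.span K (u '' (J ∩ S)) with hUS
  set UT := Submodule.span K (u '' (J ∩ T)) with hUT
  have hS0 : y ∉ J → ∀ s ∈ US, h s = 0 := by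
    intro hyJ s hs
    have h4 : US ≤ LinearMap.ker h := by
      rw [hUS, Submodule.span_le]
      rintro _ ⟨g, hg, rfl⟩
      rw [SetLike.mem_coe, LinearMap.mem_ker]
      exact h0 g (hJ hg.1) (fun h => hxS (h ▸ hg.2)) (fun h => hyJ (h ▸ hg.1)) (fun h => hzS (h ▸ hg.2))
    exact LinearMap.mem_ker.mp (h4 hs)
  have hT0 : z ∉ J → ∀ t ∈ UT, h t = 0 := by
    intro hzJ t ht
    have h4 : UT ≤ LinearMap.ker h := by
      rw [hUT, Submodule.span_le]
      rintro _ ⟨g, hg, rfl⟩
      rw [SetLike.mem_coe, LinearMap.mem_ker]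
      exact h0 g (hJ hg.1) (fun h => hxT (h ▸ hg.2)) (fun h => hyT (h ▸ hg.2)) (fun h => hzJ (h ▸ hg.1))
    exact LinearMap.mem_ker.mp (h4 ht)
  have hUSJ : US ≤ Submodule.span K (u '' J) := Submodule.span_mono (Set.image_mono Set.inter_subset_left)
  have hUTJ : UT ≤ Submodule.span K (u '' J) := Submodule.span_mono (Set.image_mono Set.inter_subset_left)
  have hUSP : US ≤ Submodule.span K (u '' insert x S) :=
    Submodule.span_mono (Set.image_mono (Set.inter_subset_right.trans (Set.subset_insert x S)))
  have hUTQ : UT ≤ Submodule.span K (u '' insert x T) :=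
    Submodule.span_mono (Set.image_mono (Set.inter_subset_right.trans (Set.subset_insert x T)))
  have hxP : u x ∈ Submodule.span K (u '' insert x S) := Submodule.subset_span ⟨x, Set.mem_insert x S, rfl⟩
  have hxQ : u x ∈ Submodule.span K (u '' insert x T) := Submodule.subset_span ⟨x, Set.mem_insert x T, rfl⟩
  have hyP : u y ∈ Submodule.span K (u '' insert x S) := Submodule.subset_span ⟨y, Or.inr hyS, rfl⟩
  have hzQ : u z ∈ Submodule.span K (u '' insert x T) := Submodule.subset_span ⟨z, Or.inr hzT, rfl⟩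
  have split : ∀ (γ : K) (s t : U), s ∈ US → t ∈ UT → s + t = - u x + u y + u z + γ • u x →
      ∃ r : K, u y = s + r • u x ∧ u z = t + (1 - γ - r) • u x := by
    intro γ s t hs ht e
    have h1 : u y - s ∈ Submodule.span K (u '' insert x S) := Submodule.sub_mem _ hyP (hUSP hs)
    have e1 : u y - s = t - u z + (1 - γ) • u x := by
      have e2 : u y - s = (u y - s) + ((s + t) - (- u x + u y + u z + γ • u x)) := by
        rw [e, sub_self, add_zero]
      rw [e2]
      module
    have h2 : u y - s ∈ Submodule.span K (u '' insert x T) := by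
      rw [e1]
      exact Submodule.add_mem _ (Submodule.sub_mem _ (hUTQ ht) hzQ) (Submodule.smul_mem _ _ hxQ)
    obtain ⟨r, hr⟩ := sep R u hu hxi hST hdis hC h1 h2
    refine ⟨r, ?_, ?_⟩
    · rw [← hr]
      abel
    · have e3 : u z = t + (1 - γ) • u x - (u y - s) := by
        rw [e1]
        abel
      rw [e3, hr]
      module
  have hcy : y ∈ R.closure (insert x (J ∩ S)) ↔ ∃ r : K, u y + r • u x ∈ US := by
    rw [mem_closure_iff_span R u hu (Set.insert_subset hx (Set.inter_subset_left.trans hJ)) hy,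
      Set.image_insert_eq, Submodule.mem_span_insert']
  have hcz : z ∈ R.closure (insert x (J ∩ T)) ↔ ∃ r : K, u z + r • u x ∈ UT := by
    rw [mem_closure_iff_span R u hu (Set.insert_subset hx (Set.inter_subset_left.trans hJ)) hz,
      Set.image_insert_eq, Submodule.mem_span_insert']
  have hcx : x ∈ R.closure J ↔ u x ∈ Submodule.span K (u '' J) := mem_closure_iff_span R u hu hJ hx
  unfold Cond2
  rw [hcy, hcz, hcx]
  have hJsub : J ⊆ insert x ((J ∩ S) ∪ (J ∩ T)) := by
    intro g hg
    by_cases hgx : g = x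
    · exact Or.inl hgx
    · right
      have h1 : g ∈ S ∪ T := by
        rw [hST]
        exact ⟨hJ hg, hgx⟩
      rcases h1 with h2 | h2
      · exact Or.inl ⟨hg, h2⟩
      · exact Or.inr ⟨hg, h2⟩
  constructor
  · intro hd
    have h1 : - u x + u y + u z ∈ Submodule.span K (insert (u x) (u '' (J ∩ S) ∪ u '' (J ∩ T))) := by
      have h2 := Submodule.span_mono (R := K) (Set.image_mono (f := u) hJsub) hd
      rwa [Set.image_insert_eq, Set.image_union] at h2
    rw [Submodule.mem_span_insert'] at h1
    obtain ⟨γ, hγ⟩ := h1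
    rw [Submodule.span_union, Submodule.mem_sup] at hγ
    obtain ⟨s, hs, t, ht, e⟩ := hγ
    obtain ⟨r, e1, e2⟩ := split γ s t hs ht e
    refine ⟨⟨-r, ?_⟩, ⟨-(1 - γ - r), ?_⟩, ?_⟩
    · have e3 : u y + (-r) • u x = s := by
        rw [e1]; module
      rwa [e3]
    · have e3 : u z + (-(1 - γ - r)) • u x = t := by
        rw [e2]; module
      rwa [e3]
    · by_contra hcon
      push Not at hcon
      obtain ⟨hcon1, hcon2, hcon3⟩ := hcon
      have hxJ : x ∉ J := fun h1 => hcon1 (Submodule.subset_span ⟨x, h1, rfl⟩)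
      have hJ2 : J ⊆ (J ∩ S) ∪ (J ∩ T) := by
        intro g hg
        rcases hJsub hg with h1 | h1
        · exact absurd (h1 ▸ hg) hxJ
        · exact h1
      have h2 := Submodule.span_mono (R := K) (Set.image_mono (f := u) hJ2) hd
      rw [Set.image_union, Submodule.span_union, Submodule.mem_sup] at h2
      obtain ⟨s', hs', t', ht', e'⟩ := h2
      obtain ⟨r', e1', e2'⟩ := split 0 s' t' hs' ht' (by rw [e', zero_smul, add_zero])
      have hne : ∀ c : K, c • u x ∈ Submodule.span K (u '' J) → c = 0 := by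
        intro c hc
        by_contra hc0
        apply hcon1
        have h3 := Submodule.smul_mem _ c⁻¹ hc
        rwa [smul_smul, inv_mul_cancel₀ hc0, one_smul] at h3
      by_cases hyJ : y ∈ J
      · have hzJ : z ∈ J := hcon2 hyJ
        have h3 : r' = 0 := by
          apply hne
          have e3 : r' • u x = u y - s' := by
            rw [e1']; abel
          rw [e3]
          exact Submodule.sub_mem _ (Submodule.subset_span ⟨y, hyJ, rfl⟩) (hUSJ hs')
        have h4 : 1 - 0 - r' = 0 := by
          apply hne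
          have e3 : (1 - 0 - r') • u x = u z - t' := by
            rw [e2', add_sub_cancel_left]
          rw [e3]
          exact Submodule.sub_mem _ (Submodule.subset_span ⟨z, hzJ, rfl⟩) (hUTJ ht')
        rw [h3, sub_zero, sub_zero] at h4
        exact one_ne_zero h4
      · have hzJ : z ∉ J := hcon3 hyJ
        have h3 : r' = 1 := by
          have h5 := congrArg h e1'
          rw [map_add, map_smul, hS0 hyJ s' hs', hhx, hhy, smul_eq_mul, mul_one, zero_add] at h5
          exact h5.symm
        have h4 : 1 - 0 - r' = 1 := by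
          have h5 := congrArg h e2'
          rw [map_add, map_smul, hT0 hzJ t' ht', hhx, hhz, smul_eq_mul, mul_one, zero_add] at h5
          exact h5.symm
        rw [h3, sub_zero, sub_self] at h4
        exact zero_ne_one h4
  · rintro ⟨⟨r, hr⟩, ⟨r', hr'⟩, h3⟩
    have e : - u x + u y + u z = (u y + r • u x) + (u z + r' • u x) + (-1 - r - r') • u x := by module
    have hst : (u y + r • u x) + (u z + r' • u x) ∈ Submodule.span K (u '' J) :=
      Submodule.add_mem _ (hUSJ hr) (hUTJ hr')
    by_cases hxJ : u x ∈ Submodule.span K (u '' J)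
    · rw [e]
      exact Submodule.add_mem _ hst (Submodule.smul_mem _ _ hxJ)
    · have hne : ∀ c : K, c • u x ∈ Submodule.span K (u '' J) → c = 0 := by
        intro c hc
        by_contra hc0
        apply hxJ
        have h3 := Submodule.smul_mem _ c⁻¹ hc
        rwa [smul_smul, inv_mul_cancel₀ hc0, one_smul] at h3
      have hy0 : y ∈ J → r = 0 := by
        intro hyJ
        apply hne
        have e3 : r • u x = (u y + r • u x) - u y := by abel
        rw [e3]
        exact Submodule.sub_mem _ (hUSJ hr) (Submodule.subset_span ⟨y, hyJ, rfl⟩)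
      have hz0 : z ∈ J → r' = 0 := by
        intro hzJ
        apply hne
        have e3 : r' • u x = (u z + r' • u x) - u z := by abel
        rw [e3]
        exact Submodule.sub_mem _ (hUTJ hr') (Submodule.subset_span ⟨z, hzJ, rfl⟩)
      have hy1 : y ∉ J → r = -1 := by
        intro hyJ
        have h5 := hS0 hyJ _ hr
        rw [map_add, map_smul, hhx, hhy, smul_eq_mul, mul_one] at h5
        linear_combination h5
      have hz1 : z ∉ J → r' = -1 := by
        intro hzJ
        have h5 := hT0 hzJ _ hr'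
        rw [map_add, map_smul, hhx, hhz, smul_eq_mul, mul_one] at h5
        linear_combination h5
      have hsum : -1 - r - r' = 0 := by
        rcases h3 with h4 | ⟨h4, h5⟩ | ⟨h4, h5⟩
        · exact absurd h4 hxJ
        · rw [hy0 h4, hz1 h5]; ring
        · rw [hy1 h4, hz0 h5]; ring
      rw [e, hsum, zero_smul, add_zero]
      exact hst

end Pool.Agent.H36.TX
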