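import Pool.Agent.H36.TX.Defs

set_option autoImplicit false

/-!
# [H36 TX Core] the relation forced by a circuit through `x` and `y`

Let `A = C \ {x, y}` (a subset of `M.E \ {e, x, y, z}`). (1) `A ∪ {y, z}` and `A ∪ {x, z}` are independent, `A ∪ {x, y, z}`
is not (`IsNonloop.contractElem_indep_iff`; `z` is not a loop as `f (w z) = 1`). (2) Over `ZMod 2`: `v x` is in the span of
`A ∪ {y, z}`; with `g` (the functional) and (1): `v x + v y ∈ span (v '' A)`. (3) So `v e + v z ∈ span (v '' A)`; `A ∪ {x, y}`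
and `A ∪ {e, z}` are dependent. (4) Over `F`: `w x - w y` and `w e - w z` lie in `span (w '' A)` (apply `f`). (5)
`(α + β) (w y - w z) = (w e - w z) - α (w x - w y)`, as `α + β + γ = 1` (apply `f`). If `α + β ≠ 0` then `A ∪ {y, z}` is
dependent.
-/

namespace Pool.Agent.H36.TX

open scoped Matroid

private lemma phi_span {α K U : Type} [Field K] [AddCommGroup U] [Module K U] (u : α → U)
    (φ : U →ₗ[K] K) {A : Set α} (hA : ∀ a ∈ A, φ (u a) = 0) {s : U}
    (hs : s ∈ Submodule.span K (u '' A)) : φ s = 0 := by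
  have h : Submodule.span K (u '' A) ≤ LinearMap.ker φ := by
    rw [Submodule.span_le]
    rintro _ ⟨a, ha, rfl⟩
    exact hA a ha
  exact h hs

private lemma two_diff {α K U : Type} [Field K] [AddCommGroup U] [Module K U] (u : α → U)
    (φ : U →ₗ[K] K) {A : Set α} {p q : α} (hA : ∀ a ∈ A, φ (u a) = 0) (hp : φ (u p) = 1)
    (hq : φ (u q) = 1) (h : u p ∈ Submodule.span K (u '' insert q A)) :
    u p - u q ∈ Submodule.span K (u '' A) := by
  rw [Set.image_insert_eq, Submodule.mem_span_insert] at h
  obtain ⟨t, s, hs, he⟩ := h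
  have h1 := congrArg φ he
  rw [map_add, map_smul, phi_span u φ hA hs, hp, hq, smul_eq_mul, mul_one, add_zero] at h1
  rw [he, ← h1, one_smul, add_sub_cancel_left]
  exact hs

private lemma mem_ins {α K U : Type} [Field K] [AddCommGroup U] [Module K U] (u : α → U)
    {A : Set α} {p q : α} (h : u p - u q ∈ Submodule.span K (u '' A)) :
    u p ∈ Submodule.span K (u '' insert q A) := by
  rw [Set.image_insert_eq, Submodule.mem_span_insert]
  exact ⟨1, u p - u q, h, by rw [one_smul]; abel⟩

theorem core {α F V W : Type} [Finite α] [Field F] [AddCommGroup V] [Module (ZMod 2) V] [AddCommGroup W] [Module F W]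
    (M : Matroid α) (v : α → V) (hv : IsRep M (ZMod 2) v) (w : α → W) (hw : IsRep M F w)
    (g : V →ₗ[ZMod 2] ZMod 2) (f : W →ₗ[F] F) {e x y z : α} (hd : Diff4 e x y z)
    (he : e ∈ M.E) (hx : x ∈ M.E) (hy : y ∈ M.E) (hz : z ∈ M.E)
    (hg : ∀ a ∈ M.E, a ≠ e → a ≠ x → a ≠ y → a ≠ z → g (v a) = 0)
    (hge : g (v e) = 1) (hgx : g (v x) = 1) (hgy : g (v y) = 1) (hgz : g (v z) = 1)
    (hf : ∀ a ∈ M.E, a ≠ e → a ≠ x → a ≠ y → a ≠ z → f (w a) = 0)
    (hfe : f (w e) = 1) (hfx : f (w x) = 1) (hfy : f (w y) = 1) (hfz : f (w z) = 1)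
    (hev : v e = v x + v y + v z) {a b c : F} (hew : w e = a • w x + b • w y + c • w z)
    {C : Set α} (hC : ((M ＼ {e}) ／ {z}).IsCircuit C) (hxC : x ∈ C) (hyC : y ∈ C) : a + b = 0 := by
  classical
  obtain ⟨hex, hey, hez, hxy, hxz, hyz⟩ := hd
  have hCE : C ⊆ (M.E \ {e}) \ {z} := hC.subset_ground
  obtain ⟨A, hAdef⟩ : ∃ A : Set α, A = C \ {x, y} := ⟨_, rfl⟩
  have hAC : A ⊆ C := by rw [hAdef]; exact Set.diff_subset
  have hAE : A ⊆ M.E := fun t ht => (hCE (hAC ht)).1.1
  have heA : e ∉ A := fun h => (hCE (hAC h)).1.2 rfl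
  have hzA : z ∉ A := fun h => (hCE (hAC h)).2 rfl
  have hxA : x ∉ A := by rw [hAdef]; simp
  have hyA : y ∉ A := by rw [hAdef]; simp
  have hCx : C \ {x} = insert y A := by
    rw [hAdef]
    ext t
    simp only [Set.mem_diff, Set.mem_singleton_iff, Set.mem_insert_iff, not_or]
    constructor
    · rintro ⟨h1, h2⟩
      by_cases h3 : t = y
      · exact Or.inl h3
      · exact Or.inr ⟨h1, h2, h3⟩
    · rintro (h1 | ⟨h1, h2, -⟩)
      · rw [h1]; exact ⟨hyC, hxy.symm⟩
      · exact ⟨h1, h2⟩
  have hCy : C \ {y} = insert x A := by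
    rw [hAdef]
    ext t
    simp only [Set.mem_diff, Set.mem_singleton_iff, Set.mem_insert_iff, not_or]
    constructor
    · rintro ⟨h1, h2⟩
      by_cases h3 : t = x
      · exact Or.inl h3
      · exact Or.inr ⟨h1, h3, h2⟩
    · rintro (h1 | ⟨h1, -, h2⟩)
      · rw [h1]; exact ⟨hxC, hxy⟩
      · exact ⟨h1, h2⟩
  have hCxy : C = insert x (insert y A) := by
    rw [← hCx, Set.insert_diff_singleton, Set.insert_eq_of_mem hxC]
  -- `z` is not a loop
  have hzI : M.Indep {z} := by
    rw [hw {z} (Set.singleton_subset_iff.2 hz)]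
    rw [linearIndepOn_singleton_iff]
    intro h0
    rw [h0, map_zero] at hfz
    exact zero_ne_one hfz
  have hzI' : (M ＼ {e}).Indep {z} := by
    rw [Matroid.delete_indep_iff]
    exact ⟨hzI, Set.disjoint_singleton.2 hez.symm⟩
  have hzN : (M ＼ {e}).IsNonloop z := Matroid.indep_singleton.1 hzI'
  have key : ∀ I : Set α, z ∉ I → e ∉ I → (((M ＼ {e}) ／ {z}).Indep I ↔ M.Indep (insert z I)) := by
    intro I h1 h2
    rw [hzN.contractElem_indep_iff, Matroid.delete_indep_iff]
    constructor
    · rintro ⟨-, h3, -⟩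
      exact h3
    · intro h3
      refine ⟨h1, h3, ?_⟩
      rw [Set.disjoint_singleton_right]
      rintro (h4 | h4)
      · exact hez h4
      · exact h2 h4
  have hI1 : M.Indep (insert z (insert y A)) := by
    rw [← key _ (by rintro (h | h); exacts [hyz h.symm, hzA h]) (by rintro (h | h); exacts [hey h, heA h]), ← hCx]
    exact hC.diff_singleton_indep hxC
  have hI2 : M.Indep (insert z (insert x A)) := by
    rw [← key _ (by rintro (h | h); exacts [hxz h.symm, hzA h]) (by rintro (h | h); exacts [hex h, heA h]), ← hCy]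
    exact hC.diff_singleton_indep hyC
  have hD : ¬ M.Indep (insert z (insert x (insert y A))) := by
    rw [← hCxy, ← key _ (fun h => (hCE h).2 rfl) (fun h => (hCE h).1.2 rfl)]
    exact hC.not_indep
  -- ground sets
  have hyAE : insert y A ⊆ M.E := Set.insert_subset hy hAE
  have hxAE : insert x A ⊆ M.E := Set.insert_subset hx hAE
  have hzAE : insert z A ⊆ M.E := Set.insert_subset hz hAE
  have hgA : ∀ t ∈ A, g (v t) = 0 := fun t ht => hg t (hAE ht) (fun h => heA (h ▸ ht))
    (fun h => hxA (h ▸ ht)) (fun h => hyA (h ▸ ht)) (fun h => hzA (h ▸ ht))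
  have hfA : ∀ t ∈ A, f (w t) = 0 := fun t ht => hf t (hAE ht) (fun h => heA (h ▸ ht))
    (fun h => hxA (h ▸ ht)) (fun h => hyA (h ▸ ht)) (fun h => hzA (h ▸ ht))
  -- (2)
  have hv1 : LinearIndepOn (ZMod 2) v (insert z (insert y A)) :=
    (hv _ (Set.insert_subset hz hyAE)).1 hI1
  have hv2 : LinearIndepOn (ZMod 2) v (insert z (insert x A)) :=
    (hv _ (Set.insert_subset hz hxAE)).1 hI2
  have hv3 : ¬ LinearIndepOn (ZMod 2) v (insert x (insert z (insert y A))) := by
    rw [Set.insert_comm, ← hv _ (Set.insert_subset hz (Set.insert_subset hx hyAE))]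
    exact hD
  have hxm : x ∉ insert z (insert y A) := by
    rintro (h | h | h)
    exacts [hxz h, hxy h, hxA h]
  have h1 : v x ∈ Submodule.span (ZMod 2) (v '' insert z (insert y A)) := by
    by_contra hcon
    exact hv3 ((linearIndepOn_insert hxm).2 ⟨hv1, hcon⟩)
  have h2 : v x - v y ∈ Submodule.span (ZMod 2) (v '' A) := by
    rw [Set.image_insert_eq, Submodule.mem_span_insert] at h1
    obtain ⟨s, r, hr, hxs⟩ := h1
    rw [Set.image_insert_eq, Submodule.mem_span_insert] at hr
    obtain ⟨t, q, hq, hrt⟩ := hr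
    have ht : t ≠ 0 := by
      rintro rfl
      rw [zero_smul, zero_add] at hrt
      have h3 : v x ∈ Submodule.span (ZMod 2) (v '' insert z A) := by
        rw [Set.image_insert_eq, Submodule.mem_span_insert]
        exact ⟨s, q, hq, by rw [hxs, hrt]⟩
      rw [Set.insert_comm] at hv2
      exact ((linearIndepOn_insert (by rintro (h | h); exacts [hxz h, hxA h])).1 hv2).2 h3
    have ht1 : t = 1 := by
      have hz2 : ∀ t : ZMod 2, t ≠ 0 → t = 1 := by decide
      exact hz2 t ht
    have h4 := congrArg g hxs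
    rw [hrt, map_add, map_add, map_smul, map_smul, phi_span v g hgA hq, hgx, hgz, hgy, smul_eq_mul,
      smul_eq_mul, mul_one, mul_one, add_zero, ht1] at h4
    have hs : s = 0 := by
      have : s + 1 = 0 + 1 := by rw [← h4, zero_add]
      exact add_right_cancel this
    rw [hxs, hrt, hs, ht1, zero_smul, zero_add, one_smul, add_sub_cancel_left]
    exact hq
  have h3 : v e - v z ∈ Submodule.span (ZMod 2) (v '' A) := by
    have h5 : v y + v y = 0 := by
      rw [← two_smul (ZMod 2) (v y)]
      have : (2 : ZMod 2) = 0 := by decide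
      rw [this, zero_smul]
    have h6 : v e - v z = v x - v y := by
      rw [hev]
      have : v y = -v y := eq_neg_of_add_eq_zero_left h5
      calc v x + v y + v z - v z = v x + v y := by abel
        _ = v x + -v y := by rw [← this]
        _ = v x - v y := by abel
    rw [h6]
    exact h2
  -- (3)
  have hd1 : ¬ M.Indep (insert x (insert y A)) := by
    rw [hv _ (Set.insert_subset hx hyAE)]
    intro h
    exact ((linearIndepOn_insert (by rintro (h | h); exacts [hxy h, hxA h])).1 h).2 (mem_ins v h2)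
  have hd2 : ¬ M.Indep (insert e (insert z A)) := by
    rw [hv _ (Set.insert_subset he hzAE)]
    intro h
    exact ((linearIndepOn_insert (by rintro (h | h); exacts [hez h, heA h])).1 h).2 (mem_ins v h3)
  -- (4)
  have hIy : M.Indep (insert y A) := hI1.subset (Set.subset_insert _ _)
  have hIz : M.Indep (insert z A) := hI1.subset (Set.insert_subset_insert (Set.subset_insert _ _))
  have h7 : w x - w y ∈ Submodule.span F (w '' A) := by
    apply two_diff w f hfA hfx hfy
    by_contra hcon
    exact hd1 ((hw _ (Set.insert_subset hx hyAE)).2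
      ((linearIndepOn_insert (by rintro (h | h); exacts [hxy h, hxA h])).2 ⟨(hw _ hyAE).1 hIy, hcon⟩))
  have h8 : w e - w z ∈ Submodule.span F (w '' A) := by
    apply two_diff w f hfA hfe hfz
    by_contra hcon
    exact hd2 ((hw _ (Set.insert_subset he hzAE)).2
      ((linearIndepOn_insert (by rintro (h | h); exacts [hez h, heA h])).2 ⟨(hw _ hzAE).1 hIz, hcon⟩))
  -- (5)
  have h9 : a + b + c = 1 := by
    have := congrArg f hew
    rw [map_add, map_add, map_smul, map_smul, map_smul, hfe, hfx, hfy, hfz] at this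
    simp only [smul_eq_mul, mul_one] at this
    exact this.symm
  by_contra hab
  have h10 : (a + b) • (w y - w z) ∈ Submodule.span F (w '' A) := by
    have h11 : (a + b) • (w y - w z) = (w e - w z) - a • (w x - w y) := by
      have hc : c = 1 - (a + b) := by rw [← h9]; ring
      rw [hew, hc]
      module
    rw [h11]
    exact Submodule.sub_mem _ h8 (Submodule.smul_mem _ _ h7)
  have h12 : w y - w z ∈ Submodule.span F (w '' A) := by
    have := Submodule.smul_mem _ (a + b)⁻¹ h10
    rwa [smul_smul, inv_mul_cancel₀ hab, one_smul] at this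
  have h13 : LinearIndepOn F w (insert y (insert z A)) := by
    rw [Set.insert_comm]
    exact (hw _ (Set.insert_subset hz hyAE)).1 hI1
  exact ((linearIndepOn_insert (by rintro (h | h); exacts [hyz h, hyA h])).1 h13).2 (mem_ins w h12)

end Pool.Agent.H36.TX
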