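import Pool.Agent.H36.TX.Defs

set_option autoImplicit false

/-!
# [H36 TX Delta] the Delta-Wye exchange at a triad, in terms of the matroid only

`f` is the functional of the triad `{x, y, z}`, all values `1` there. The vectors `w g` (`g` not in the triad),
`w y - w z`, `w z - w x`, `w x - w y` lie in its kernel. Plan: let `A = I \ {x, y, z}`; `w x` etc. are outside of
`span (w '' A)`. One element `x` in `I`: `LinearIndepOn` of `insert x A` for the new vectors iff `A` independent and
`w y - w z ∉ span (w '' A)` iff `A ∪ {y, z}` independent for `w`. Two elements: independent iff `A ∪ {x, y, z}` is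
independent (add `w z` outside of the kernel). Three elements: the sum of the new vectors is `0`.
-/

namespace Pool.Agent.H36.TX

open scoped Matroid

/-- the condition for the independence of `I` in the exchanged matroid, in terms of `R` -/
def Cond {α : Type} (R : Matroid α) (x y z : α) (I : Set α) : Prop :=
  (x ∉ I ∧ y ∉ I ∧ z ∉ I ∧ R.Indep I) ∨
  (x ∈ I ∧ y ∉ I ∧ z ∉ I ∧ R.Indep (insert y (insert z (I \ {x})))) ∨
  (x ∉ I ∧ y ∈ I ∧ z ∉ I ∧ R.Indep (insert x (insert z (I \ {y})))) ∨
  (x ∉ I ∧ y ∉ I ∧ z ∈ I ∧ R.Indep (insert x (insert y (I \ {z})))) ∨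
  (x ∈ I ∧ y ∈ I ∧ z ∉ I ∧ R.Indep (insert z I)) ∨
  (x ∈ I ∧ y ∉ I ∧ z ∈ I ∧ R.Indep (insert y I)) ∨
  (x ∉ I ∧ y ∈ I ∧ z ∈ I ∧ R.Indep (insert x I))

open Classical in
/-- the vectors after the exchange -/
noncomputable def dl {α W : Type} [AddCommGroup W] (w : α → W) (x y z : α) : α → W := fun g =>
  if g = x then w y - w z else if g = y then w z - w x else if g = z then w x - w y else w g

private theorem v1 {F W : Type} [Field F] [AddCommGroup W] [Module F W] (U : Submodule F W) (f : W →ₗ[F] F)
    (hU : ∀ u ∈ U, f u = 0) {p q : W} (hp : f p = 1) (hq : f q = 1) :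
    (q ∉ U ∧ ¬ ∃ a : F, p + a • q ∈ U) ↔ p - q ∉ U := by
  constructor
  · rintro ⟨-, h2⟩ h
    exact h2 ⟨-1, by rwa [neg_one_smul, ← sub_eq_add_neg]⟩
  · intro h
    refine ⟨fun h1 => ?_, ?_⟩
    · have h2 := hU q h1
      rw [hq] at h2
      exact one_ne_zero h2
    · rintro ⟨a, ha⟩
      have h2 := hU _ ha
      rw [map_add, map_smul, hp, hq, smul_eq_mul, mul_one] at h2
      have h3 : a = -1 := by linear_combination h2
      rw [h3, neg_one_smul, ← sub_eq_add_neg] at ha
      exact h ha

private theorem v2 {F W : Type} [Field F] [AddCommGroup W] [Module F W] (U : Submodule F W) (f : W →ₗ[F] F)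
    (hU : ∀ u ∈ U, f u = 0) {p q s : W} (hp : f p = 1) (hq : f q = 1) (hs : f s = 1) :
    (q ∉ U ∧ (¬ ∃ a : F, p + a • q ∈ U) ∧ ¬ ∃ a b : F, s + a • p + b • q ∈ U) ↔
    (s - p ∉ U ∧ ¬ ∃ a : F, (q - s) + a • (s - p) ∈ U) := by
  constructor
  · rintro ⟨h1, h2, h3⟩
    refine ⟨fun h => h3 ⟨-1, 0, ?_⟩, ?_⟩
    · have e : s + (-1 : F) • p + (0 : F) • q = s - p := by module
      rwa [e]
    · rintro ⟨a, ha⟩
      by_cases hc : a = 1
      · apply h2
        refine ⟨-1, ?_⟩
        have e : p + (-1 : F) • q = -((q - s) + a • (s - p)) := by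
          rw [hc]; module
        rw [e]
        exact U.neg_mem ha
      · have hc' : a - 1 ≠ 0 := sub_ne_zero.mpr hc
        apply h3
        refine ⟨-((a - 1)⁻¹ * a), (a - 1)⁻¹, ?_⟩
        have e : s + (-((a - 1)⁻¹ * a)) • p + (a - 1)⁻¹ • q = (a - 1)⁻¹ • ((q - s) + a • (s - p)) := by
          have e1 : (a - 1)⁻¹ • ((q - s) + a • (s - p)) =
              ((a - 1)⁻¹ * (a - 1)) • s + (-((a - 1)⁻¹ * a)) • p + (a - 1)⁻¹ • q := by module
          rw [e1, inv_mul_cancel₀ hc', one_smul]
        rw [e]
        exact U.smul_mem _ ha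
  · rintro ⟨h1, h2⟩
    refine ⟨fun h => ?_, ?_, ?_⟩
    · have h3 := hU q h
      rw [hq] at h3
      exact one_ne_zero h3
    · rintro ⟨a, ha⟩
      have h3 := hU _ ha
      rw [map_add, map_smul, hp, hq, smul_eq_mul, mul_one] at h3
      have h4 : a = -1 := by linear_combination h3
      apply h2
      refine ⟨1, ?_⟩
      have e : (q - s) + (1 : F) • (s - p) = -(p + a • q) := by
        rw [h4]; module
      rw [e]
      exact U.neg_mem ha
    · rintro ⟨a, b, hab⟩
      have h3 := hU _ hab
      rw [map_add, map_add, map_smul, map_smul, hp, hq, hs, smul_eq_mul, smul_eq_mul, mul_one, mul_one] at h3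
      have h4 : a = -1 - b := by linear_combination h3
      by_cases hb : b = 0
      · apply h1
        have e : s - p = s + a • p + b • q := by
          rw [h4, hb]; module
        rw [e]
        exact hab
      · apply h2
        refine ⟨1 + b⁻¹, ?_⟩
        have e : (q - s) + (1 + b⁻¹) • (s - p) = b⁻¹ • (s + a • p + b • q) := by
          have e1 : b⁻¹ • (s + a • p + b • q) = b⁻¹ • s + (b⁻¹ * a) • p + (b⁻¹ * b) • q := by module
          rw [e1, h4, inv_mul_cancel₀ hb, one_smul]
          have e2 : b⁻¹ * (-1 - b) = -b⁻¹ - 1 := by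
            field_simp
          rw [e2]
          module
        rw [e]
        exact U.smul_mem _ hab

/-- the cyclic cases -/
private theorem gen {α F W : Type} [Field F] [AddCommGroup W] [Module F W] (E : Set α) (w v : α → W)
    (f : W →ₗ[F] F) {p q s : α} (hpq : p ≠ q) (hps : p ≠ s) (hqs : q ≠ s)
    (hf : ∀ g ∈ E, g ≠ p → g ≠ q → g ≠ s → f (w g) = 0)
    (hfp : f (w p) = 1) (hfq : f (w q) = 1) (hfs : f (w s) = 1)
    (hvp : v p = w q - w s) (hvq : v q = w s - w p) (hvs : v s = w p - w q)
    (hv : ∀ g, g ≠ p → g ≠ q → g ≠ s → v g = w g) (I : Set α) (hI : I ⊆ E) :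
    (p ∈ I → q ∉ I → s ∉ I →
      (LinearIndepOn F w (insert q (insert s (I \ {p}))) ↔ LinearIndepOn F v I)) ∧
    (p ∈ I → q ∈ I → s ∉ I → (LinearIndepOn F w (insert s I) ↔ LinearIndepOn F v I)) ∧
    (p ∈ I → q ∈ I → s ∈ I → ¬ LinearIndepOn F v I) := by
  classical
  have hspan : ∀ A : Set α, A ⊆ E → p ∉ A → q ∉ A → s ∉ A →
      (∀ u ∈ Submodule.span F (w '' A), f u = 0) ∧ Set.EqOn v w A := by
    intro A hA h1 h2 h3
    refine ⟨?_, ?_⟩
    · have h4 : Submodule.span F (w '' A) ≤ LinearMap.ker f := by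
        rw [Submodule.span_le]
        rintro _ ⟨g, hg, rfl⟩
        rw [SetLike.mem_coe, LinearMap.mem_ker]
        exact hf g (hA hg) (fun h => h1 (h ▸ hg)) (fun h => h2 (h ▸ hg)) (fun h => h3 (h ▸ hg))
      exact fun u hu => LinearMap.mem_ker.mp (h4 hu)
    · intro g hg
      exact hv g (fun h => h1 (h ▸ hg)) (fun h => h2 (h ▸ hg)) (fun h => h3 (h ▸ hg))
  refine ⟨?_, ?_, ?_⟩
  · intro hp hq hs
    set A : Set α := I \ {p} with hA
    have hpA : p ∉ A := fun h => h.2 rfl
    have hqA : q ∉ A := fun h => hq h.1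
    have hsA : s ∉ A := fun h => hs h.1
    have hIA : I = insert p A := by
      rw [hA, Set.insert_sdiff_singleton, Set.insert_eq_of_mem hp]
    obtain ⟨hU, hvw⟩ := hspan A (Set.sdiff_subset.trans hI) hpA hqA hsA
    have hq2 : q ∉ insert s A := by
      rintro (h | h)
      · exact hqs h
      · exact hqA h
    rw [hIA, linearIndepOn_insert hpA, linearIndepOn_insert hq2, linearIndepOn_insert hsA, linearIndepOn_congr hvw,
      Set.image_insert_eq, Submodule.mem_span_insert', Set.image_congr hvw, hvp, ← v1 _ f hU hfq hfs, and_assoc]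
  · intro hp hq hs
    set A : Set α := (I \ {p}) \ {q} with hA
    have hpA : p ∉ A := fun h => h.1.2 rfl
    have hqA : q ∉ A := fun h => h.2 rfl
    have hsA : s ∉ A := fun h => hs h.1.1
    have hIA : I = insert p (insert q A) := by
      have hqm : q ∈ I \ {p} := ⟨hq, fun h => hpq h.symm⟩
      rw [hA, Set.insert_sdiff_singleton, Set.insert_eq_of_mem hqm, Set.insert_sdiff_singleton, Set.insert_eq_of_mem hp]
    obtain ⟨hU, hvw⟩ := hspan A ((Set.sdiff_subset.trans Set.sdiff_subset).trans hI) hpA hqA hsA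
    have hp2 : p ∉ insert q A := by
      rintro (h | h)
      · exact hpq h
      · exact hpA h
    have hs2 : s ∉ insert p (insert q A) := by
      rintro (h | h | h)
      · exact hps h.symm
      · exact hqs h.symm
      · exact hsA h
    rw [hIA, linearIndepOn_insert hs2, linearIndepOn_insert hp2, linearIndepOn_insert hqA,
      linearIndepOn_insert hp2, linearIndepOn_insert hqA, linearIndepOn_congr hvw]
    simp only [Set.image_insert_eq, Submodule.mem_span_insert', Set.image_congr hvw, hvp, hvq]
    have h1 := v2 (Submodule.span F (w '' A)) f hU hfp hfq hfs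
    tauto
  · intro hp hq hs hli
    rw [linearIndepOn_iff] at hli
    have h2 := hli (Finsupp.single p 1 + Finsupp.single q 1 + Finsupp.single s 1) (by
      rw [Finsupp.mem_supported]
      intro g hg
      have h3 := Finsupp.support_add (Finset.mem_coe.mp hg)
      rcases Finset.mem_union.mp h3 with h4 | h4
      · rcases Finset.mem_union.mp (Finsupp.support_add h4) with h5 | h5
        · have := Finsupp.support_single_subset h5
          rw [Finset.mem_singleton.mp this]; exact hp
        · have := Finsupp.support_single_subset h5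
          rw [Finset.mem_singleton.mp this]; exact hq
      · have := Finsupp.support_single_subset h4
        rw [Finset.mem_singleton.mp this]; exact hs) (by
      rw [map_add, map_add, Finsupp.linearCombination_single, Finsupp.linearCombination_single,
        Finsupp.linearCombination_single, hvp, hvq, hvs]
      module)
    have h3 := DFunLike.congr_fun h2 p
    simp [hpq, hps] at h3

theorem delta {α F W : Type} [Finite α] [Field F] [AddCommGroup W] [Module F W] (R : Matroid α) (w : α → W)
    (hw : IsRep R F w) (f : W →ₗ[F] F) {x y z : α} (hx : x ∈ R.E) (hy : y ∈ R.E) (hz : z ∈ R.E)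
    (hxy : x ≠ y) (hxz : x ≠ z) (hyz : y ≠ z) (hf : ∀ g ∈ R.E, g ≠ x → g ≠ y → g ≠ z → f (w g) = 0)
    (hfx : f (w x) = 1) (hfy : f (w y) = 1) (hfz : f (w z) = 1) :
    ∀ I ⊆ R.E, (Cond R x y z I ↔ LinearIndepOn F (dl w x y z) I) := by
  classical
  intro I hI
  have ex : dl w x y z x = w y - w z := by simp [dl]
  have ey : dl w x y z y = w z - w x := by simp [dl, hxy.symm]
  have ez : dl w x y z z = w x - w y := by simp [dl, hxz.symm, hyz.symm]
  have eo : ∀ g, g ≠ x → g ≠ y → g ≠ z → dl w x y z g = w g := by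
    intro g h1 h2 h3
    simp [dl, h1, h2, h3]
  obtain ⟨a1, a2, a3⟩ := gen R.E w (dl w x y z) f hxy hxz hyz hf hfx hfy hfz ex ey ez eo I hI
  obtain ⟨b1, b2, -⟩ := gen R.E w (dl w x y z) f hyz hxy.symm hxz.symm (fun g h h1 h2 h3 => hf g h h3 h1 h2) hfy hfz hfx
    ey ez ex (fun g h1 h2 h3 => eo g h3 h1 h2) I hI
  obtain ⟨c1, c2, -⟩ := gen R.E w (dl w x y z) f hxz.symm hyz.symm hxy (fun g h h1 h2 h3 => hf g h h2 h3 h1) hfz hfx hfy
    ez ex ey (fun g h1 h2 h3 => eo g h2 h3 h1) I hI
  have hsub : ∀ (a b c : α), a ∈ R.E → b ∈ R.E → insert a (insert b (I \ {c})) ⊆ R.E := by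
    intro a b c ha hb
    rw [Set.insert_subset_iff, Set.insert_subset_iff]
    exact ⟨ha, hb, Set.sdiff_subset.trans hI⟩
  have hsub1 : ∀ a, a ∈ R.E → insert a I ⊆ R.E := fun a ha => Set.insert_subset_iff.mpr ⟨ha, hI⟩
  by_cases h1 : x ∈ I <;> by_cases h2 : y ∈ I <;> by_cases h3 : z ∈ I
  · have h4 := a3 h1 h2 h3
    simp only [Cond, h1, h2, h3, not_true_eq_false, false_and, and_false, or_false, false_iff]
    exact h4
  · have h4 := a2 h1 h2 h3
    simp only [Cond, h1, h2, h3, not_true_eq_false, false_and, and_false, or_false, false_or, true_and,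
      not_false_eq_true]
    rw [← h4]
    exact hw _ (hsub1 z hz)
  · have h4 := c2 h3 h1 h2
    simp only [Cond, h1, h2, h3, not_true_eq_false, false_and, and_false, or_false, false_or, true_and,
      not_false_eq_true]
    rw [← h4]
    exact hw _ (hsub1 y hy)
  · have h4 := a1 h1 h2 h3
    simp only [Cond, h1, h2, h3, not_true_eq_false, false_and, and_false, or_false, false_or, true_and,
      not_false_eq_true]
    rw [← h4]
    exact hw _ (hsub y z x hy hz)
  · have h4 := b2 h2 h3 h1
    simp only [Cond, h1, h2, h3, not_true_eq_false, false_and, and_false, or_false, false_or, true_and,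
      not_false_eq_true]
    rw [← h4]
    exact hw _ (hsub1 x hx)
  · have h4 := b1 h2 h3 h1
    simp only [Cond, h1, h2, h3, not_true_eq_false, false_and, and_false, or_false, false_or, true_and,
      not_false_eq_true]
    rw [← h4, Set.insert_comm]
    exact hw _ (hsub z x y hz hx)
  · have h4 := c1 h3 h1 h2
    simp only [Cond, h1, h2, h3, not_true_eq_false, false_and, and_false, or_false, false_or, true_and,
      not_false_eq_true]
    rw [← h4]
    exact hw _ (hsub x y z hx hy)
  · simp only [Cond, h1, h2, h3, not_true_eq_false, false_and, and_false, or_false, false_or, true_and,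
      not_false_eq_true]
    rw [hw I hI]
    exact (linearIndepOn_congr fun g hg => eo g (fun h => h1 (h ▸ hg)) (fun h => h2 (h ▸ hg)) (fun h => h3 (h ▸ hg))).symm

end Pool.Agent.H36.TX
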