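import Pool.Agent.H36.TX.Fun
import Pool.Agent.H18.SG.Lin

set_option autoImplicit false

/-!
# [H36 TX Ext] the binary extension by the sum of a triad

Let `w` represent `R` over `ZMod 2` with `f` the functional of the triad, `u` the same vectors and
`u e = w x + w y + w z`. `M` is the matroid of the vectors `u` restricted to `insert e R.E`.
-/

namespace Pool.Agent.H36.TX

open Matroid

/-- two elements of a 3-connected matroid with at least four elements are independent -/
theorem pair_indep {α : Type} [Finite α] (R : Matroid α) (h3 : ThreeConn R)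
    (h4 : 4 ≤ R.E.encard) {x y : α} (hx : x ∈ R.E) (hy : y ∈ R.E) (hxy : x ≠ y) :
    R.Indep {x, y} := by
  have hsub : ({x, y} : Set α) ⊆ R.E := Set.insert_subset hx (Set.singleton_subset_iff.2 hy)
  have h2 : ({x, y} : Set α).encard = 2 := Set.encard_pair hxy
  have hcard : (2 : ℕ∞) ≤ (R.E \ {x, y}).encard := by
    have h := Set.encard_sdiff_add_encard_of_subset hsub
    rw [h2] at h
    rw [← h] at h4
    have hf : (R.E \ {x, y}).encard ≠ ⊤ := (Set.toFinite _).encard_lt_top.ne
    lift (R.E \ {x, y}).encard to ℕ using hf with p hp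
    norm_cast at h4 ⊢
    omega
  have h := h3 2 (Or.inr rfl) {x, y} (R.E \ {x, y}) (Set.union_sdiff_cancel hsub)
    Set.disjoint_sdiff_right (by rw [h2]; norm_num) (by exact_mod_cast hcard)
  have h5 : R.eRk (R.E \ {x, y}) ≤ R.eRank := R.eRk_le_eRank _
  have h6 : R.eRk {x, y} ≤ 2 := h2 ▸ R.eRk_le_encard _
  have f1 : R.eRank ≠ ⊤ := by
    rw [← Matroid.eRk_ground]
    exact ne_top_of_le_ne_top (Set.toFinite R.E).encard_lt_top.ne (R.eRk_le_encard _)
  have f2 : R.eRk (R.E \ {x, y}) ≠ ⊤ := ne_top_of_le_ne_top f1 h5
  have f3 : R.eRk {x, y} ≠ ⊤ := ne_top_of_le_ne_top (by simp) h6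
  have h7 : R.eRk {x, y} = ({x, y} : Set α).encard := by
    rw [h2]
    lift R.eRank to ℕ using f1 with r hr
    lift R.eRk (R.E \ {x, y}) to ℕ using f2 with s hs
    lift R.eRk {x, y} to ℕ using f3 with t ht
    norm_cast at h h5 h6 ⊢
    omega
  exact (Matroid.indep_iff_eRk_eq_encard_of_finite (Set.toFinite _)).2 h7

theorem exists_ext {α : Type} [Finite α] (R : Matroid α) (hR : Rep R (ZMod 2)) (h3 : ThreeConn R)
    (h4 : 4 ≤ R.E.encard) {e x y z : α} (hd : Diff4 e x y z) (he : e ∉ R.E) (hT : R.IsCocircuit {x, y, z}) :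
    ∃ M : Matroid α, M ＼ {e} = R ∧ Rep M (ZMod 2) ∧ M.IsCircuit {e, x, y, z} ∧ M.IsCocircuit {e, x, y, z} := by
  classical
  obtain ⟨W, _, _, w0, hw0⟩ := hR
  obtain ⟨w, f, hw, hf⟩ := exists_fun R w0 hw0 hT
  obtain ⟨hex, hey, hez, hxy, hxz, hyz⟩ := hd
  have hsub : ({x, y, z} : Set α) ⊆ R.E := hT.subset_ground
  have hxE : x ∈ R.E := hsub (by simp)
  have hyE : y ∈ R.E := hsub (by simp)
  have hzE : z ∈ R.E := hsub (by simp)
  have hfx : f (w x) = 1 := by rw [hf x hxE]; simp
  have hfy : f (w y) = 1 := by rw [hf y hyE]; simp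
  have hfz : f (w z) = 1 := by rw [hf z hzE]; simp
  obtain ⟨u, hu⟩ : ∃ u : α → W, u = Function.update w e (w x + w y + w z) := ⟨_, rfl⟩
  have hue : u e = w x + w y + w z := by rw [hu]; simp
  have hug : ∀ g, g ≠ e → u g = w g := fun g hg => by rw [hu]; simp [hg]
  have hux := hug x (Ne.symm hex)
  have huy := hug y (Ne.symm hey)
  have huz := hug z (Ne.symm hez)
  have hfe : f (u e) = 1 := by
    rw [hue, map_add, map_add, hfx, hfy, hfz]; decide
  obtain ⟨M, hM⟩ : ∃ M : Matroid α, M = (H18.SG.linMat (ZMod 2) u) ↾ (insert e R.E) := ⟨_, rfl⟩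
  have hME : M.E = insert e R.E := by rw [hM]; rfl
  have hMi : ∀ I, M.Indep I ↔ LinearIndepOn (ZMod 2) u I ∧ I ⊆ insert e R.E := by
    intro I
    rw [hM, Matroid.restrict_indep_iff, H18.SG.linMat_indep]
  have huw : ∀ I ⊆ R.E, (LinearIndepOn (ZMod 2) u I ↔ LinearIndepOn (ZMod 2) w I) := by
    intro I hI
    refine linearIndepOn_congr ?_
    intro i hi
    exact hug i (fun h => he (h ▸ hI hi))
  have hMR : ∀ I ⊆ R.E, (M.Indep I ↔ R.Indep I) := by
    intro I hI
    rw [hMi, huw I hI, hw I hI]
    exact and_iff_left (hI.trans (Set.subset_insert _ _))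
  -- three elements of the triad are independent
  have hpair : ∀ a b, a ∈ R.E → b ∈ R.E → a ≠ b → w a ≠ w b := by
    intro a b ha hb hab h
    have h1 := (hw _ (Set.insert_subset ha (Set.singleton_subset_iff.2 hb))).1
      (pair_indep R h3 h4 ha hb hab)
    have h2 := h1.injOn (x₁ := a) (by simp) (x₂ := b) (by simp) h
    exact hab h2
  have hyzI : LinearIndepOn (ZMod 2) w {y, z} :=
    (hw _ (Set.insert_subset hyE (Set.singleton_subset_iff.2 hzE))).1
      (pair_indep R h3 h4 hyE hzE hyz)
  have hxyzI : LinearIndepOn (ZMod 2) w {x, y, z} := by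
    refine (linearIndepOn_insert (by simp [hxy, hxz])).2 ⟨hyzI, fun hmem => ?_⟩
    rw [Set.image_pair, Submodule.mem_span_pair] at hmem
    obtain ⟨s, t, hst⟩ := hmem
    have h1 : s + t = 1 := by
      have := congrArg f hst
      simpa [hfx, hfy, hfz] using this
    have hs : s = 0 ∨ s = 1 := (by decide : ∀ s : ZMod 2, s = 0 ∨ s = 1) s
    rcases hs with hs | hs
    · have ht : t = 1 := by rw [hs, zero_add] at h1; exact h1
      rw [hs, ht, zero_smul, one_smul, zero_add] at hst
      exact hpair z x hzE hxE (Ne.symm hxz) hst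
    · have ht : t = 0 := by rw [hs] at h1; simpa using h1
      rw [hs, ht, zero_smul, one_smul, add_zero] at hst
      exact hpair y x hyE hxE (Ne.symm hxy) hst
  have huxyz : LinearIndepOn (ZMod 2) u {x, y, z} := (huw _ hsub).2 hxyzI
  have hz2 : ∀ q : W, q + q = 0 := by
    intro q
    have : (2 : ZMod 2) • q = 0 := by
      have h2 : (2 : ZMod 2) = 0 := by decide
      rw [h2, zero_smul]
    rwa [two_smul] at this
  -- the element `e` with two of the triad
  have htwo : ∀ a b c : α, LinearIndepOn (ZMod 2) u {a, b, c} → a ≠ b → a ≠ c →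
      u e = u a + u b + u c → e ≠ b → e ≠ c → LinearIndepOn (ZMod 2) u {e, b, c} := by
    intro a b c habc hab hac hsum heb hec
    have h1 := (linearIndepOn_insert (a := a) (s := {b, c}) (by simp [hab, hac])).1 habc
    refine (linearIndepOn_insert (by simp [heb, hec])).2 ⟨h1.1, fun hmem => h1.2 ?_⟩
    have h2 : u a = u e - u b - u c := by rw [hsum]; abel
    rw [h2]
    refine Submodule.sub_mem _ (Submodule.sub_mem _ hmem ?_) ?_
    · exact Submodule.subset_span ⟨b, by simp, rfl⟩
    · exact Submodule.subset_span ⟨c, by simp, rfl⟩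
  have hsum1 : u e = u x + u y + u z := by rw [hue, hux, huy, huz]
  have hEsub : ({e, x, y, z} : Set α) ⊆ insert e R.E := Set.insert_subset_insert hsub
  refine ⟨M, ?_, ⟨W, inferInstance, inferInstance, u, ?_⟩, ?_, ?_⟩
  · refine Matroid.ext_indep ?_ ?_
    · rw [Matroid.delete_ground, hME]
      exact Set.insert_sdiff_self_of_notMem he
    · intro I hI
      rw [Matroid.delete_ground, hME, Set.insert_sdiff_self_of_notMem he] at hI
      rw [Matroid.delete_indep_iff, hMR I hI, Set.disjoint_singleton_right]
      exact and_iff_left (fun h => he (hI h))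
  · intro I hI
    rw [hMi]
    exact and_iff_left (hME ▸ hI)
  · rw [Matroid.isCircuit_iff_dep_forall_sdiff_singleton_indep]
    constructor
    · rw [Matroid.dep_iff, hMi, hME]
      refine ⟨fun h => ?_, hEsub⟩
      have h1 := ((linearIndepOn_insert (a := e) (s := {x, y, z})
        (by simp [hex, hey, hez])).1 h.1).2
      apply h1
      rw [hsum1]
      refine Submodule.add_mem _ (Submodule.add_mem _ ?_ ?_) ?_
      · exact Submodule.subset_span ⟨x, by simp, rfl⟩
      · exact Submodule.subset_span ⟨y, by simp, rfl⟩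
      · exact Submodule.subset_span ⟨z, by simp, rfl⟩
    · intro g hg
      rw [hMi]
      refine ⟨?_, Set.sdiff_subset.trans hEsub⟩
      rcases hg with rfl | rfl | rfl | rfl
      · refine huxyz.mono ?_
        rintro a ⟨ha, hag⟩
        simp only [Set.mem_insert_iff, Set.mem_singleton_iff] at ha hag ⊢
        tauto
      · refine (htwo g y z huxyz hxy hxz hsum1 hey hez).mono ?_
        rintro a ⟨ha, hag⟩
        simp only [Set.mem_insert_iff, Set.mem_singleton_iff] at ha hag ⊢
        tauto
      · refine (htwo g x z ?_ (Ne.symm hxy) hyz (by rw [hsum1]; abel) hex hez).mono ?_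
        · rwa [Set.insert_comm]
        · rintro a ⟨ha, hag⟩
          simp only [Set.mem_insert_iff, Set.mem_singleton_iff] at ha hag ⊢
          tauto
      · refine (htwo g x y ?_ (Ne.symm hxz) (Ne.symm hyz) (by rw [hsum1]; abel) hex hey).mono ?_
        · refine huxyz.mono ?_
          intro a ha
          simp only [Set.mem_insert_iff, Set.mem_singleton_iff] at ha ⊢
          tauto
        · rintro a ⟨ha, hag⟩
          simp only [Set.mem_insert_iff, Set.mem_singleton_iff] at ha hag ⊢
          tauto
  · rw [Matroid.isCocircuit_iff_minimal] at hT ⊢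
    -- outside of the four elements the functional is zero
    have hins : ∀ A ⊆ R.E, Disjoint ({x, y, z} : Set α) A → LinearIndepOn (ZMod 2) u A →
        LinearIndepOn (ZMod 2) u (insert e A) := by
      intro A hA hdis hAi
      refine (linearIndepOn_insert (fun h => he (hA h))).2 ⟨hAi, fun hmem => ?_⟩
      have h1 : Submodule.span (ZMod 2) (u '' A) ≤ LinearMap.ker f := by
        rw [Submodule.span_le]
        rintro _ ⟨g, hg, rfl⟩
        have hge : g ≠ e := fun h => he (h ▸ hA hg)
        have hgT : g ∉ ({x, y, z} : Set α) := fun h => hdis.notMem_of_mem_left h hg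
        change f (u g) = 0
        rw [hug g hge, hf g (hA hg), if_neg hgT]
      have h2 : f (u e) = 0 := h1 hmem
      rw [hfe] at h2
      exact one_ne_zero h2
    -- bases of `R` are bases of `M`
    have hbase : ∀ B, R.IsBase B → M.IsBase B := by
      intro B hB
      have hBi : M.Indep B := (hMR B hB.subset_ground).2 hB.indep
      rw [Matroid.isBase_iff_maximal_indep, maximal_subset_iff]
      refine ⟨hBi, fun J hJ hBJ => Set.Subset.antisymm hBJ ?_⟩
      intro j hj
      by_contra hjB
      have hJE := hJ.subset_ground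
      rw [hME] at hJE
      have h1 : M.Indep (insert j B) := hJ.subset (Set.insert_subset hj hBJ)
      have hspan : ∀ g ∈ R.E, u g ∈ Submodule.span (ZMod 2) (u '' B) := by
        intro g hg
        by_contra hns
        have hgB : g ∉ B := fun h => hns (Submodule.subset_span ⟨g, h, rfl⟩)
        have h2 : LinearIndepOn (ZMod 2) u (insert g B) := ((hMi B).1 hBi).1.insert hns
        have hgBE : insert g B ⊆ R.E := Set.insert_subset hg hB.subset_ground
        have h3' : R.Indep (insert g B) := (hMR _ hgBE).1
          ((hMi _).2 ⟨h2, hgBE.trans (Set.subset_insert _ _)⟩)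
        exact hgB (by
          rw [hB.eq_of_subset_indep h3' (Set.subset_insert _ _)]; exact Set.mem_insert _ _)
      have hjs : u j ∈ Submodule.span (ZMod 2) (u '' B) := by
        rcases hJE hj with rfl | hjR
        · rw [hsum1]
          exact Submodule.add_mem _ (Submodule.add_mem _ (hspan x hxE) (hspan y hyE)) (hspan z hzE)
        · exact hspan j hjR
      exact ((linearIndepOn_insert hjB).1 ((hMi _).1 h1).1).2 hjs
    -- for every element of the triad a base meeting the triad in this element only
    have hone : ∀ k ∈ ({x, y, z} : Set α), ∃ B, R.IsBase B ∧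
        ({x, y, z} \ {k} : Set α) ∩ B = ∅ ∧ k ∈ B := by
      intro k hk
      by_contra hcon
      push Not at hcon
      have h1 : ∀ B, R.IsBase B → (({x, y, z} \ {k} : Set α) ∩ B).Nonempty := by
        intro B hB
        by_contra hne
        rw [Set.not_nonempty_iff_eq_empty] at hne
        have h2 := hcon B hB hne
        obtain ⟨g, hg, hgB⟩ := hT.prop B hB
        have hgk : g ≠ k := fun h => h2 (h ▸ hgB)
        have : g ∈ (({x, y, z} \ {k} : Set α) ∩ B) := ⟨⟨hg, hgk⟩, hgB⟩
        rw [hne] at this
        exact this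
      have h2 := hT.le_of_le h1 Set.sdiff_subset hk
      exact h2.2 rfl
    rw [minimal_subset_iff]
    constructor
    · intro B hB
      by_contra hne
      rw [Set.not_nonempty_iff_eq_empty] at hne
      have heB : e ∉ B := fun h => by
        have : e ∈ (({e, x, y, z} : Set α) ∩ B) := ⟨by simp, h⟩
        rw [hne] at this
        exact this
      have hBR : B ⊆ R.E := by
        intro g hg
        have := hB.subset_ground hg
        rw [hME] at this
        rcases this with rfl | h
        · exact absurd hg heB
        · exact h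
      have hdis : Disjoint ({x, y, z} : Set α) B := by
        rw [Set.disjoint_left]
        intro g hg hgB
        have : g ∈ (({e, x, y, z} : Set α) ∩ B) := ⟨Set.mem_insert_of_mem _ hg, hgB⟩
        rw [hne] at this
        exact this
      have h1 := hins B hBR hdis ((hMi B).1 hB.indep).1
      have h2 : M.Indep (insert e B) := (hMi _).2 ⟨h1, Set.insert_subset_insert hBR⟩
      exact heB (by
        rw [hB.eq_of_subset_indep h2 (Set.subset_insert _ _)]; exact Set.mem_insert _ _)
    · intro X hX hXs
      refine (Set.Subset.antisymm hXs ?_).symm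
      have htri : ∀ k ∈ ({x, y, z} : Set α), k ∈ X := by
        intro k hk
        obtain ⟨B, hB, hdis, -⟩ := hone k hk
        obtain ⟨g, hgX, hgB⟩ := hX B (hbase B hB)
        have hge : g ≠ e := fun h => he (h ▸ hB.subset_ground hgB)
        have hgT : g ∈ ({x, y, z} : Set α) := by
          have := hXs hgX
          rcases this with h | h
          · exact absurd h hge
          · exact h
        by_contra hkX
        have hgk : g ≠ k := fun h => hkX (h ▸ hgX)
        have : g ∈ (({x, y, z} \ {k} : Set α) ∩ B) := ⟨⟨hgT, hgk⟩, hgB⟩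
        rw [hdis] at this
        exact this
      refine Set.insert_subset ?_ htri
      obtain ⟨B, hB, hdis, hxB⟩ := hone x (by simp)
      have heB : e ∉ B := fun h => he (hB.subset_ground h)
      have hdis2 : Disjoint ({x, y, z} : Set α) (B \ {x}) := by
        rw [Set.disjoint_left]
        rintro g hg ⟨hgB, hgx⟩
        have : g ∈ (({x, y, z} \ {x} : Set α) ∩ B) := ⟨⟨hg, hgx⟩, hgB⟩
        rw [hdis] at this
        exact this
      have hBxR : B \ {x} ⊆ R.E := Set.sdiff_subset.trans hB.subset_ground
      have h1 := hins (B \ {x}) hBxR hdis2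
        ((hMi _).1 ((hMR _ hBxR).2 (hB.indep.subset Set.sdiff_subset))).1
      have h2 : M.Indep (insert e (B \ {x})) := (hMi _).2 ⟨h1, Set.insert_subset_insert hBxR⟩
      have h5 := (hbase B hB).exchange_isBase_of_indep heB h2
      obtain ⟨g, hgX, hgB⟩ := hX _ h5
      rcases hgB with rfl | hgB
      · exact hgX
      · exfalso
        have hge : g ≠ e := fun h => he (h ▸ hBxR hgB)
        rcases hXs hgX with h | h
        · exact hge h
        · exact hdis2.notMem_of_mem_left h hgB

end Pool.Agent.H36.TX
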