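import Pool.Agent.H36.TX.Defs

set_option autoImplicit false

/-!
# [H36 TX Fun] the functional of a cocircuit
-/

namespace Pool.Agent.H36.TX

open scoped Matroid

theorem mem_closure_iff_span {α F W : Type} [Field F] [AddCommGroup W] [Module F W]
    (M : Matroid α) (w : α → W) (hw : IsRep M F w) {X : Set α} (hX : X ⊆ M.E) {g : α} (hg : g ∈ M.E) :
    g ∈ M.closure X ↔ w g ∈ Submodule.span F (w '' X) := by
  obtain ⟨I, hI⟩ := M.exists_isBasis X hX
  have hIX : I ⊆ X := hI.subset
  have hIE : I ⊆ M.E := hIX.trans hX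
  have hli : LinearIndepOn F w I := (hw I hIE).1 hI.indep
  have key : ∀ y ∈ M.E, y ∈ M.closure I ↔ w y ∈ Submodule.span F (w '' I) := by
    intro y hy
    by_cases hyI : y ∈ I
    · exact ⟨fun _ => Submodule.subset_span ⟨y, hyI, rfl⟩,
        fun _ => M.mem_closure_of_mem hyI hIE⟩
    · rw [hI.indep.mem_closure_iff_of_notMem hyI]
      have h1 : insert y I ⊆ M.E := Set.insert_subset hy hIE
      rw [← Matroid.not_indep_iff h1, hw _ h1, linearIndepOn_insert hyI]
      constructor
      · intro h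
        by_contra hcon
        exact h ⟨hli, hcon⟩
      · intro h h2
        exact h2.2 h
  have hsp : Submodule.span F (w '' I) = Submodule.span F (w '' X) := by
    refine le_antisymm (Submodule.span_mono (Set.image_mono hIX)) (Submodule.span_le.2 ?_)
    rintro _ ⟨y, hy, rfl⟩
    refine (key y (hX hy)).1 ?_
    rw [hI.closure_eq_closure]
    exact M.mem_closure_of_mem hy hX
  rw [← hI.closure_eq_closure, key g hg, hsp]

open Classical in
theorem exists_fun {α F W : Type} [Finite α] [Field F] [AddCommGroup W] [Module F W] (M : Matroid α) (w : α → W)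
    (hw : IsRep M F w) {K : Set α} (hK : M.IsCocircuit K) :
    ∃ (w' : α → W) (f : W →ₗ[F] F), IsRep M F w' ∧ ∀ g ∈ M.E, f (w' g) = if g ∈ K then 1 else 0 := by
  have hKE : K ⊆ M.E := hK.subset_ground
  have hmin := Matroid.isCocircuit_iff_minimal_compl_nonspanning.1 hK
  have hNE : M.E \ K ⊆ M.E := Set.sdiff_subset
  have h1 : ¬ M.E ⊆ M.closure (M.E \ K) := fun h =>
    hmin.prop ((Matroid.spanning_iff_ground_subset_closure hNE).2 h)
  obtain ⟨g0, hg0, hg1⟩ := Set.not_subset.1 h1
  rw [mem_closure_iff_span M w hw hNE hg0] at hg1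
  obtain ⟨f, hf, hfk⟩ := Submodule.exists_le_ker_of_notMem hg1
  have hN : ∀ g ∈ M.E, g ∉ K → f (w g) = 0 := fun g hg hgK =>
    LinearMap.mem_ker.1 (hfk (Submodule.subset_span ⟨g, ⟨hg, hgK⟩, rfl⟩))
  have hk : ∀ g ∈ K, f (w g) ≠ 0 := by
    intro g hg h0
    have hss : K \ {g} ⊂ K := Set.sdiff_singleton_ssubset.2 hg
    have h2 : M.Spanning (M.E \ (K \ {g})) := by
      by_contra hcon
      exact hmin.not_prop_of_lt hss hcon
    have h3 : w g0 ∈ Submodule.span F (w '' (M.E \ (K \ {g}))) := by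
      rw [← mem_closure_iff_span M w hw Set.sdiff_subset hg0, h2.closure_eq]
      exact hg0
    have h4 : Submodule.span F (w '' (M.E \ (K \ {g}))) ≤ LinearMap.ker f := by
      refine Submodule.span_le.2 ?_
      rintro _ ⟨y, hy, rfl⟩
      rw [SetLike.mem_coe, LinearMap.mem_ker]
      by_cases hyK : y ∈ K
      · have : y = g := by
          by_contra hne
          exact hy.2 ⟨hyK, hne⟩
        rw [this]
        exact h0
      · exact hN y hy.1 hyK
    exact hf (LinearMap.mem_ker.1 (h4 h3))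
  obtain ⟨c, hc⟩ : ∃ c : α → Fˣ, ∀ g, c g = if h : f (w g) = 0 then 1 else
      if g ∈ K then Units.mk0 (f (w g))⁻¹ (inv_ne_zero h) else 1 := ⟨_, fun _ => rfl⟩
  refine ⟨fun g => (c g : F) • w g, f, fun I hI => ?_, fun g hg => ?_⟩
  · rw [hw I hI]
    exact (LinearIndependent.units_smul_iff (fun x : I => w x) (fun x : I => c x)).symm
  · rw [map_smul, hc, smul_eq_mul]
    by_cases hgK : g ∈ K
    · rw [dif_neg (hk g hgK), if_pos hgK, if_pos hgK, Units.val_mk0, inv_mul_cancel₀ (hk g hgK)]
    · rw [dif_pos (hN g hg hgK), if_neg hgK, hN g hg hgK, mul_zero]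

end Pool.Agent.H36.TX
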