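import Pool.Agent.H36.TX.Defs

set_option autoImplicit false

/-!
# [H36 TX Three] the extension is 3-connected

Plan. Let `(X, Y)` be a partition of `M.E` with `|X|, |Y| ≥ k` and `r(X) + r(Y) < r(M) + k`, say `e ∈ X`. Then
`r(M ＼ {e}) = r(M)` as `e` is in the closure of `{x, y, z}`. If `|X \ {e}| ≥ k` this is a `k`-separation of `M ＼ {e}`. Otherwise
`k = 1`, `X = {e}`, `r(X) = 1` (`e` is not a loop as the circuit has four elements) and `r(Y) = r(M)`; or `k = 2`,
`X = {e, g}`, `r(X) = 2` (if `{e, g}` is dependent it contains a circuit `D ∋ e`; `D` meets the cocircuit in one element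
if `g` is not in it, and is a proper subset of the circuit `{e, x, y, z}` otherwise) and `r(Y) = r(M)` as `M ＼ {e}` has no
`1`-separation `({g}, rest)`.
-/

namespace Pool.Agent.H36.TX

open scoped Matroid

private lemma del_eRk {α : Type} (M : Matroid α) {e : α} {X : Set α} (he : e ∉ X) :
    (M ＼ {e}).eRk X = M.eRk X := by
  rw [Matroid.delete_eq_restrict, Matroid.restrict_eRk_eq']
  have h : X ∩ (M.E \ {e}) = X ∩ M.E := by
    ext a
    constructor
    · rintro ⟨h1, h2, _⟩
      exact ⟨h1, h2⟩
    · rintro ⟨h1, h2⟩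
      refine ⟨h1, h2, ?_⟩
      intro h3
      rw [Set.mem_singleton_iff] at h3
      exact he (h3 ▸ h1)
  rw [h, Matroid.eRk_inter_ground]

private lemma del_eRank {α : Type} (M : Matroid α) {e x y z : α}
    (hC : M.IsCircuit {e, x, y, z}) : (M ＼ {e}).eRank = M.eRank := by
  have h1 : (M ＼ {e}).eRank = M.eRk (M.E \ {e}) := by
    rw [Matroid.delete_eq_restrict, Matroid.eRank_restrict]
  rw [h1, ← Matroid.eRk_closure_eq]
  apply Matroid.eRk_eq_eRank
  have hcl : e ∈ M.closure (M.E \ {e}) := by
    have h2 : e ∈ M.closure (({e, x, y, z} : Set α) \ {e}) :=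
      hC.mem_closure_sdiff_singleton_of_mem (by simp)
    refine M.closure_subset_closure ?_ h2
    exact Set.diff_subset_diff_left hC.subset_ground
  intro a ha
  by_cases hae : a = e
  · rw [hae]; exact hcl
  · exact M.subset_closure (M.E \ {e}) Set.diff_subset ⟨ha, by simpa using hae⟩

private lemma e_nonloop {α : Type} (M : Matroid α) {e x y z : α} (hd : Diff4 e x y z)
    (hC : M.IsCircuit {e, x, y, z}) : M.Indep {e} := by
  apply hC.ssubset_indep
  rw [Set.ssubset_iff_of_subset (by simp)]
  refine ⟨x, by simp, ?_⟩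
  rw [Set.mem_singleton_iff]
  exact fun h => hd.1 h.symm

private lemma pair_indep {α : Type} (M : Matroid α) {e g x y z : α} (hd : Diff4 e x y z)
    (hC : M.IsCircuit {e, x, y, z}) (hK : M.IsCocircuit {e, x, y, z}) (hg : M.Indep {g})
    (hge : g ≠ e) (hgE : g ∈ M.E) : M.Indep {e, g} := by
  by_contra hdep
  have heE : e ∈ M.E := hC.subset_ground (by simp)
  have hD : M.Dep {e, g} := by
    rw [Matroid.dep_iff]
    refine ⟨hdep, ?_⟩
    intro a ha
    rcases ha with rfl | ha
    · exact heE
    · rw [Set.mem_singleton_iff] at ha; rw [ha]; exact hgE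
  obtain ⟨D, hDs, hDc⟩ := hD.exists_isCircuit_subset
  have heD : e ∈ D := by
    by_contra hn
    have : D ⊆ {g} := by
      intro a ha
      rcases hDs ha with h | h
      · exact absurd (h ▸ ha) hn
      · exact h
    exact hDc.not_indep (hg.subset this)
  have hgD : g ∈ D := by
    by_contra hn
    have : D ⊆ {e} := by
      intro a ha
      rcases hDs ha with h | h
      · exact h
      · rw [Set.mem_singleton_iff] at h
        exact absurd (h ▸ ha) hn
    exact hDc.not_indep ((e_nonloop M hd hC).subset this)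
  have hDe : D = {e, g} := by
    apply Set.Subset.antisymm hDs
    intro a ha
    rcases ha with rfl | ha
    · exact heD
    · rw [Set.mem_singleton_iff] at ha; rw [ha]; exact hgD
  by_cases hgC : g ∈ ({e, x, y, z} : Set α)
  · have hsub : D ⊆ {e, x, y, z} := by
      rw [hDe]
      intro a ha
      rcases ha with rfl | ha
      · simp
      · rw [Set.mem_singleton_iff] at ha; rw [ha]; exact hgC
    have heq := hDc.eq_of_subset_isCircuit hC hsub
    have hx : x ∈ D := by rw [heq]; simp
    have hy : y ∈ D := by rw [heq]; simp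
    rw [hDe] at hx hy
    obtain ⟨h1, h2, h3, h4, h5, h6⟩ := hd
    rcases hx with hx | hx
    · exact h1 hx.symm
    · rcases hy with hy | hy
      · exact h2 hy.symm
      · rw [Set.mem_singleton_iff] at hx hy
        exact h4 (hx.trans hy.symm)
  · refine hDc.inter_isCocircuit_ne_singleton hK (e := e) ?_
    ext a
    constructor
    · rintro ⟨ha1, ha2⟩
      rcases hDs ha1 with h | h
      · exact h
      · rw [Set.mem_singleton_iff] at h
        exact absurd (h ▸ ha2) hgC
    · intro ha
      rw [Set.mem_singleton_iff] at ha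
      rw [ha]
      exact ⟨heD, by simp⟩

private lemma three_conn_aux {α : Type} [Finite α] (M : Matroid α) {e x y z : α}
    (hd : Diff4 e x y z)
    (hC : M.IsCircuit {e, x, y, z}) (hK : M.IsCocircuit {e, x, y, z}) (h3 : ThreeConn (M ＼ {e}))
    (k : ℕ) (hk : k = 1 ∨ k = 2) (X Y : Set α) (hXY : X ∪ Y = M.E) (hdis : Disjoint X Y)
    (hX : (k : ℕ∞) ≤ X.encard) (hY : (k : ℕ∞) ≤ Y.encard) (heX : e ∈ X) :
    M.eRank + k ≤ M.eRk X + M.eRk Y := by
  have heY : e ∉ Y := fun h => Set.disjoint_left.mp hdis heX h
  have heX' : e ∉ X \ {e} := by simp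
  have hR := del_eRank M hC
  have hRY := del_eRk M heY
  have hRX := del_eRk M heX'
  have hE' : (X \ {e}) ∪ Y = (M ＼ {e}).E := by
    rw [Matroid.delete_ground, ← hXY, Set.union_diff_distrib, Set.diff_singleton_eq_self heY]
  have hdis' : Disjoint (X \ {e}) Y := hdis.mono_left Set.diff_subset
  have hfin : M.eRank ≠ ⊤ := by
    rw [Matroid.eRank_ne_top_iff]
    infer_instance
  by_cases hc : (k : ℕ∞) ≤ (X \ {e}).encard
  · have h := h3 k hk _ _ hE' hdis' hc hY
    rw [hR, hRX, hRY] at h
    exact h.trans (add_le_add (M.eRk_mono Set.diff_subset) le_rfl)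
  · rw [not_le] at hc
    have hcard := Set.encard_diff_singleton_add_one heX
    rcases hk with rfl | rfl
    · -- `k = 1`
      have h0 : X \ {e} = ∅ := by
        rw [← Set.encard_eq_zero]
        have : (X \ {e}).encard < 1 := by exact_mod_cast hc
        exact Order.lt_one_iff.mp this
      have hYE : Y = (M ＼ {e}).E := by
        rw [← hE', h0, Set.empty_union]
      have hYR : M.eRk Y = M.eRank := by
        rw [← hRY, ← hR, hYE, Matroid.eRk_ground]
      have h1 : M.eRk {e} = 1 := by
        rw [(e_nonloop M hd hC).eRk_eq_encard, Set.encard_singleton]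
      have h2 : M.eRk {e} ≤ M.eRk X := M.eRk_mono (by simpa using heX)
      rw [h1] at h2
      rw [hYR, add_comm]
      exact add_le_add (by exact_mod_cast h2) le_rfl
    · -- `k = 2`
      have h1 : (X \ {e}).encard = 1 := by
        apply le_antisymm
        · exact Order.le_of_lt_add_one (by
            have : ((2 : ℕ) : ℕ∞) = 1 + 1 := by norm_num
            rw [← this]; exact hc)
        · have h2 : ((1 : ℕ∞)) + 1 ≤ (X \ {e}).encard + 1 := by
            rw [hcard]
            have : ((2 : ℕ) : ℕ∞) = 1 + 1 := by norm_num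
            rw [← this]; exact hX
          exact (WithTop.add_le_add_iff_right (ENat.natCast_ne_top 1)).mp h2
      obtain ⟨g, hg⟩ := Set.encard_eq_one.mp h1
      have hgX : g ∈ X \ {e} := by rw [hg]; simp
      have hge : g ≠ e := by simpa using hgX.2
      have hgE : g ∈ M.E := by rw [← hXY]; exact Or.inl hgX.1
      rw [hg] at hE' hdis' hRX
      have h := h3 1 (Or.inl rfl) _ _ hE' hdis' (by simp)
        (le_trans (by norm_num) hY)
      rw [hR, hRX, hRY] at h
      have hYR : M.eRank ≤ M.eRk Y := by
        have h5 : M.eRank + 1 ≤ M.eRk Y + 1 := by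
          calc M.eRank + 1 = M.eRank + ((1 : ℕ) : ℕ∞) := by norm_num
            _ ≤ M.eRk {g} + M.eRk Y := h
            _ ≤ 1 + M.eRk Y := add_le_add (M.eRk_singleton_le g) le_rfl
            _ = M.eRk Y + 1 := add_comm _ _
        exact (WithTop.add_le_add_iff_right (ENat.natCast_ne_top 1)).mp h5
      have hg1 : M.eRk {g} = 1 := by
        apply le_antisymm (M.eRk_singleton_le g)
        have h5 : M.eRank + 1 ≤ M.eRank + M.eRk {g} := by
          calc M.eRank + 1 = M.eRank + ((1 : ℕ) : ℕ∞) := by norm_num
            _ ≤ M.eRk {g} + M.eRk Y := h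
            _ ≤ M.eRk {g} + M.eRank := add_le_add le_rfl (M.eRk_le_eRank Y)
            _ = M.eRank + M.eRk {g} := add_comm _ _
        exact (WithTop.add_le_add_iff_left hfin).mp h5
      have hgi : M.Indep {g} := by
        rw [Matroid.eRk_singleton_eq_one_iff] at hg1
        exact hg1.indep
      have hp := pair_indep M hd hC hK hgi hge hgE
      have h2 : M.eRk {e, g} = 2 := by
        rw [hp.eRk_eq_encard, Set.encard_pair (Ne.symm hge)]
      have h4 : M.eRk {e, g} ≤ M.eRk X := by
        apply M.eRk_mono
        intro a ha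
        rcases ha with rfl | ha
        · exact heX
        · rw [Set.mem_singleton_iff] at ha; rw [ha]; exact hgX.1
      rw [h2] at h4
      rw [add_comm (M.eRk X)]
      exact add_le_add hYR (by exact_mod_cast h4)

theorem three_conn {α : Type} [Finite α] (M : Matroid α) {e x y z : α} (hd : Diff4 e x y z)
    (hC : M.IsCircuit {e, x, y, z}) (hK : M.IsCocircuit {e, x, y, z}) (h3 : ThreeConn (M ＼ {e}))
    (h4 : 4 ≤ (M ＼ {e}).E.encard) : ThreeConn M := by
  intro k hk X Y hXY hdis hX hY
  have heE : e ∈ M.E := hC.subset_ground (by simp)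
  rw [← hXY] at heE
  rcases heE with heX | heY
  · exact three_conn_aux M hd hC hK h3 k hk X Y hXY hdis hX hY heX
  · rw [add_comm (M.eRk X)]
    exact three_conn_aux M hd hC hK h3 k hk Y X (by rw [Set.union_comm]; exact hXY) hdis.symm hY
      hX heY

end Pool.Agent.H36.TX
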