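import Pool.Agent.H36.TX.Bin
import Pool.Agent.H36.TX.Circ
import Pool.Agent.H36.TX.Three
import Pool.Agent.H36.TX.Core
import Pool.Agent.H36.TX.Ext

set_option autoImplicit false

/-!
# [H36 TX Main] binary matroids with a quad
-/

namespace Pool.Agent.H36.TX

open scoped Matroid

/-- the relation of a circuit with four elements -/
theorem coef {α F W : Type} [Finite α] [Field F] [AddCommGroup W] [Module F W] (M : Matroid α) (w : α → W)
    (hw : IsRep M F w) {e x y z : α} (hd : Diff4 e x y z) (hC : M.IsCircuit {e, x, y, z}) :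
    ∃ a b c : F, a ≠ 0 ∧ b ≠ 0 ∧ c ≠ 0 ∧ w e = a • w x + b • w y + c • w z := by
  obtain ⟨hex, hey, hez, hxy, hxz, hyz⟩ := hd
  have hE := hC.subset_ground
  have h1 : M.Indep {x, y, z} := by
    have := hC.sdiff_singleton_indep (e := e) (by simp)
    have e1 : ({e, x, y, z} : Set α) \ {e} = {x, y, z} := by
      ext t
      simp only [Set.mem_sdiff, Set.mem_insert_iff, Set.mem_singleton_iff]
      constructor
      · rintro ⟨h | h, h'⟩
        · exact absurd h h'
        · exact h
      · intro h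
        refine ⟨Or.inr h, ?_⟩
        rintro rfl
        rcases h with h | h | h
        · exact hex h
        · exact hey h
        · exact hez h
    rwa [e1] at this
  have h2 : ¬ LinearIndepOn F w (insert e {x, y, z}) := by
    rw [← hw _ hE]
    exact hC.not_indep
  have hn : e ∉ ({x, y, z} : Set α) := by
    simp [hex, hey, hez]
  have hs : ({x, y, z} : Set α) ⊆ M.E := (Set.subset_insert _ _).trans hE
  have h3 : w e ∈ Submodule.span F (w '' {x, y, z}) := by
    by_contra h
    exact h2 ((linearIndepOn_insert hn).2 ⟨(hw _ hs).1 h1, h⟩)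
  rw [Set.image_insert_eq, Set.image_insert_eq, Set.image_singleton] at h3
  obtain ⟨a, b, c, h4⟩ := Submodule.mem_span_triple.1 h3
  refine ⟨a, b, c, ?_, ?_, ?_, h4.symm⟩
  · rintro rfl
    have h5 : M.Indep {e, y, z} := hC.ssubset_indep (by
      refine ⟨fun t ht => ?_, fun h => ?_⟩
      · simp only [Set.mem_insert_iff, Set.mem_singleton_iff] at ht ⊢
        tauto
      · have := h (show x ∈ ({e, x, y, z} : Set α) by simp)
        simp only [Set.mem_insert_iff, Set.mem_singleton_iff] at this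
        rcases this with h | h | h
        · exact hex h.symm
        · exact hxy h
        · exact hxz h)
    rw [hw _ h5.subset_ground] at h5
    refine ((linearIndepOn_insert (by simp [hey, hez])).1 h5).2 ?_
    rw [Set.image_insert_eq, Set.image_singleton, Submodule.mem_span_pair]
    exact ⟨b, c, by rw [← h4, zero_smul, zero_add]⟩
  · rintro rfl
    have h5 : M.Indep {e, x, z} := hC.ssubset_indep (by
      refine ⟨fun t ht => ?_, fun h => ?_⟩
      · simp only [Set.mem_insert_iff, Set.mem_singleton_iff] at ht ⊢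
        tauto
      · have := h (show y ∈ ({e, x, y, z} : Set α) by simp)
        simp only [Set.mem_insert_iff, Set.mem_singleton_iff] at this
        rcases this with h | h | h
        · exact hey h.symm
        · exact hxy h.symm
        · exact hyz h)
    rw [hw _ h5.subset_ground] at h5
    refine ((linearIndepOn_insert (by simp [hex, hez])).1 h5).2 ?_
    rw [Set.image_insert_eq, Set.image_singleton, Submodule.mem_span_pair]
    exact ⟨a, c, by rw [← h4, zero_smul, add_zero]⟩
  · rintro rfl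
    have h5 : M.Indep {e, x, y} := hC.ssubset_indep (by
      refine ⟨fun t ht => ?_, fun h => ?_⟩
      · simp only [Set.mem_insert_iff, Set.mem_singleton_iff] at ht ⊢
        tauto
      · have := h (show z ∈ ({e, x, y, z} : Set α) by simp)
        simp only [Set.mem_insert_iff, Set.mem_singleton_iff] at this
        rcases this with h | h | h
        · exact hez h.symm
        · exact hxz h.symm
        · exact hyz h.symm)
    rw [hw _ h5.subset_ground] at h5
    refine ((linearIndepOn_insert (by simp [hex, hey])).1 h5).2 ?_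
    rw [Set.image_insert_eq, Set.image_singleton, Submodule.mem_span_pair]
    exact ⟨a, b, by rw [← h4, zero_smul, add_zero]⟩

/-- the exchange: if `M ＼ {e}` is representable over `F` then so is `M ／ {e}` -/
theorem exch {α : Type} [Finite α] (M : Matroid α) {e x y z : α} (hd : Diff4 e x y z) (hM : Rep M (ZMod 2))
    (hC : M.IsCircuit {e, x, y, z}) (hK : M.IsCocircuit {e, x, y, z}) (F : Type) [Field F]
    (hF : Rep (M ＼ {e}) F) : Rep (M ／ {e}) F := by
  have hE := hC.subset_ground
  have he : e ∈ M.E := hE (by simp)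
  have hx : x ∈ M.E := hE (by simp)
  have hy : y ∈ M.E := hE (by simp)
  have hz : z ∈ M.E := hE (by simp)
  obtain ⟨V, _, _, v0, hv0⟩ := hM
  obtain ⟨v, g, hv, hg⟩ := exists_fun M v0 hv0 hK
  have hge : g (v e) = 1 := by rw [hg e he, if_pos (by simp)]
  have hgx : g (v x) = 1 := by rw [hg x hx, if_pos (by simp)]
  have hgy : g (v y) = 1 := by rw [hg y hy, if_pos (by simp)]
  have hgz : g (v z) = 1 := by rw [hg z hz, if_pos (by simp)]
  have hg0 : ∀ a ∈ M.E, a ≠ e → a ≠ x → a ≠ y → a ≠ z → g (v a) = 0 := by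
    intro a ha h1 h2 h3 h4
    rw [hg a ha, if_neg]
    simp [h1, h2, h3, h4]
  have hev : v e = v x + v y + v z := by
    obtain ⟨a, b, c, ha, hb, hc, h⟩ := coef M v hv hd hC
    have key : ∀ t : ZMod 2, t ≠ 0 → t = 1 := by decide
    rw [h, key a ha, key b hb, key c hc, one_smul, one_smul, one_smul]
  have hd' := hd
  obtain ⟨hex, hey, hez, hxy, hxz, hyz⟩ := hd'
  have hRE : (M ＼ {e}).E = M.E \ {e} := rfl
  have hxR : x ∈ (M ＼ {e}).E := ⟨hx, fun h => hex h.symm⟩
  have hyR : y ∈ (M ＼ {e}).E := ⟨hy, fun h => hey h.symm⟩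
  have hzR : z ∈ (M ＼ {e}).E := ⟨hz, fun h => hez h.symm⟩
  obtain ⟨W, _, _, w0, hw0⟩ := hF
  have hT : (M ＼ {e}).IsCocircuit {x, y, z} := by
    have e1 : ({e, x, y, z} : Set α) \ {e} = {x, y, z} := by
      ext t
      simp only [Set.mem_sdiff, Set.mem_insert_iff, Set.mem_singleton_iff]
      constructor
      · rintro ⟨h | h, h'⟩
        · exact absurd h h'
        · exact h
      · intro h
        refine ⟨Or.inr h, ?_⟩
        rintro rfl
        rcases h with h | h | h
        · exact hex h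
        · exact hey h
        · exact hez h
    have := hK.delete_isCocircuit (D := {e}) (by
      refine ⟨by simp, fun h => ?_⟩
      have := h (show x ∈ ({e, x, y, z} : Set α) by simp)
      exact hex (Set.mem_singleton_iff.1 this).symm)
    rwa [e1] at this
  obtain ⟨w, f, hw, hf⟩ := exists_fun (M ＼ {e}) w0 hw0 hT
  refine ⟨W, inferInstance, inferInstance, dl w x y z, ?_⟩
  intro I hI
  have hI' : I ⊆ M.E \ {e} := hI
  have hvR : IsRep (M ＼ {e}) (ZMod 2) v := by
    intro J hJ
    rw [Matroid.delete_indep_iff, hv J (fun t ht => (hJ ht).1)]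
    constructor
    · exact fun h => h.1
    · intro h
      refine ⟨h, Set.disjoint_singleton_right.2 fun h' => (hJ h').2 rfl⟩
  rw [bin M v hv g hd he hx hy hz hg0 hge hgx hgy hgz hev I hI',
    ← delta (M ＼ {e}) v hvR g hxR hyR hzR hxy hxz hyz
      (fun a ha h1 h2 h3 => hg0 a ha.1 (fun h => ha.2 h) h1 h2 h3) hgx hgy hgz I hI,
    delta (M ＼ {e}) w hw f hxR hyR hzR hxy hxz hyz
      (fun a ha h1 h2 h3 => by rw [hf a ha, if_neg (by simp [h1, h2, h3])])
      (by rw [hf x hxR, if_pos (by simp)]) (by rw [hf y hyR, if_pos (by simp)])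
      (by rw [hf z hzR, if_pos (by simp)]) I hI]

theorem quad {α : Type} [Finite α] (M : Matroid α) {e x y z : α} (hd : Diff4 e x y z) (hM : Rep M (ZMod 2))
    (hC : M.IsCircuit {e, x, y, z}) (hK : M.IsCocircuit {e, x, y, z}) (h3 : ThreeConn (M ＼ {e}))
    (h4 : 4 ≤ (M ＼ {e}).E.encard) :
    ThreeConn M ∧ (∀ (F : Type) [Field F], (2 : F) ≠ 0 → ¬ Rep M F) ∧
      ∀ (F : Type) [Field F], Rep (M ＼ {e}) F → Rep (M ／ {e}) F := by
  have hM2 := hM
  have hE := hC.subset_ground
  have he : e ∈ M.E := hE (by simp)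
  have hx : x ∈ M.E := hE (by simp)
  have hy : y ∈ M.E := hE (by simp)
  have hz : z ∈ M.E := hE (by simp)
  obtain ⟨V, _, _, v0, hv0⟩ := hM
  obtain ⟨v, g, hv, hg⟩ := exists_fun M v0 hv0 hK
  have hge : g (v e) = 1 := by rw [hg e he, if_pos (by simp)]
  have hgx : g (v x) = 1 := by rw [hg x hx, if_pos (by simp)]
  have hgy : g (v y) = 1 := by rw [hg y hy, if_pos (by simp)]
  have hgz : g (v z) = 1 := by rw [hg z hz, if_pos (by simp)]
  have hg0 : ∀ a ∈ M.E, a ≠ e → a ≠ x → a ≠ y → a ≠ z → g (v a) = 0 := by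
    intro a ha h1 h2 h3 h4
    rw [hg a ha, if_neg]
    simp [h1, h2, h3, h4]
  have hev : v e = v x + v y + v z := by
    obtain ⟨a, b, c, ha, hb, hc, h⟩ := coef M v hv hd hC
    have key : ∀ t : ZMod 2, t ≠ 0 → t = 1 := by decide
    rw [h, key a ha, key b hb, key c hc, one_smul, one_smul, one_smul]
  have hd' := hd
  obtain ⟨hex, hey, hez, hxy, hxz, hyz⟩ := hd'
  have hRE : (M ＼ {e}).E = M.E \ {e} := rfl
  have hxR : x ∈ (M ＼ {e}).E := ⟨hx, fun h => hex h.symm⟩
  have hyR : y ∈ (M ＼ {e}).E := ⟨hy, fun h => hey h.symm⟩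
  have hzR : z ∈ (M ＼ {e}).E := ⟨hz, fun h => hez h.symm⟩
  refine ⟨three_conn M hd hC hK h3 h4, ?_, ?_⟩
  · intro F _ h2 hF
    obtain ⟨W, _, _, w0, hw0⟩ := hF
    obtain ⟨w, f, hw, hf⟩ := exists_fun M w0 hw0 hK
    have hfe : f (w e) = 1 := by rw [hf e he, if_pos (by simp)]
    have hfx : f (w x) = 1 := by rw [hf x hx, if_pos (by simp)]
    have hfy : f (w y) = 1 := by rw [hf y hy, if_pos (by simp)]
    have hfz : f (w z) = 1 := by rw [hf z hz, if_pos (by simp)]
    have hf0 : ∀ a ∈ M.E, a ≠ e → a ≠ x → a ≠ y → a ≠ z → f (w a) = 0 := by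
      intro a ha h1 h2 h3 h4
      rw [hf a ha, if_neg]
      simp [h1, h2, h3, h4]
    obtain ⟨a, b, c, -, -, -, h⟩ := coef M w hw hd hC
    obtain ⟨C1, hC1, h11, h12⟩ := common_circuit (M ＼ {e}) h3 h4 hxR hyR hzR hxy hxz hyz
    obtain ⟨C2, hC2, h21, h22⟩ := common_circuit (M ＼ {e}) h3 h4 hxR hzR hyR hxz hxy hyz.symm
    obtain ⟨C3, hC3, h31, h32⟩ := common_circuit (M ＼ {e}) h3 h4 hyR hzR hxR hyz hxy.symm hxz.symm
    have k1 : a + b = 0 := core M v hv w hw g f ⟨hex, hey, hez, hxy, hxz, hyz⟩ he hx hy hz hg0 hge hgx hgy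
      hgz hf0 hfe hfx hfy hfz hev h hC1 h11 h12
    have k2 : a + c = 0 := core M v hv w hw g f ⟨hex, hez, hey, hxz, hxy, hyz.symm⟩ he hx hz hy
      (fun a h1 h2 h3 h4 h5 => hg0 a h1 h2 h3 h5 h4) hge hgx hgz hgy
      (fun a h1 h2 h3 h4 h5 => hf0 a h1 h2 h3 h5 h4) hfe hfx hfz hfy (by rw [hev]; abel)
      (by rw [h]; abel) hC2 h21 h22
    have k3 : b + c = 0 := core M v hv w hw g f ⟨hey, hez, hex, hyz, hxy.symm, hxz.symm⟩ he hy hz hx
      (fun a h1 h2 h3 h4 h5 => hg0 a h1 h2 h5 h3 h4) hge hgy hgz hgx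
      (fun a h1 h2 h3 h4 h5 => hf0 a h1 h2 h5 h3 h4) hfe hfy hfz hfx (by rw [hev]; abel)
      (by rw [h]; abel) hC3 h31 h32
    have k4 : a + b + c = 1 := by
      have := congrArg f h
      rw [map_add, map_add, map_smul, map_smul, map_smul, hfe, hfx, hfy, hfz] at this
      simpa using this.symm
    apply h2
    linear_combination k1 + k2 + k3 - 2 * k4
  · exact fun F _ hF => exch M hd hM2 hC hK F hF

end Pool.Agent.H36.TX
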