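import Pool.Agent.H36.TX.Circ

set_option autoImplicit false

/-!
# [H36 TX Sepa] two elements without a common circuit are separated

`S` = the elements `g` with `g = y` or a common circuit of `N` with `y` (`circ_trans` as in Circ.lean),
`T = N.E \ S`.
-/

namespace Pool.Agent.H36.TX

open scoped Matroid

private theorem circ_trans_sepa {α : Type} [Finite α] (N : Matroid α) : ∀ (n : ℕ) (C₁ C₂ : Set α) (x z : α),
    (C₁ ∪ C₂).ncard ≤ n → N.IsCircuit C₁ → N.IsCircuit C₂ → x ∈ C₁ → z ∈ C₂ → (C₁ ∩ C₂).Nonempty →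
    ∃ C, N.IsCircuit C ∧ x ∈ C ∧ z ∈ C := by
  intro n
  induction n with
  | zero =>
    intro C₁ C₂ x z hn h1 h2 hx hz hne
    exfalso
    have h0 : (C₁ ∪ C₂) = ∅ := by
      rw [← Set.ncard_eq_zero (Set.toFinite _)]
      omega
    have h3 : x ∈ C₁ ∪ C₂ := Or.inl hx
    rw [h0] at h3
    exact h3
  | succ n ih =>
    intro C₁ C₂ x z hn h1 h2 hx hz hne
    by_cases hx2 : x ∈ C₂
    · exact ⟨C₂, h2, hx2, hz⟩
    by_cases hz1 : z ∈ C₁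
    · exact ⟨C₁, h1, hx, hz1⟩
    obtain ⟨y, hy1, hy2⟩ := hne
    obtain ⟨C₃, h3s, h3, hx3⟩ := h1.strong_elimination h2 hy1 hy2 hx hx2
    have hnot : ¬ C₃ ⊆ C₁ := by
      intro hs
      have h4 : C₃ = C₁ := h3.eq_of_subset_isCircuit h1 hs
      have hy3 : y ∈ C₃ := h4 ▸ hy1
      exact (h3s hy3).2 rfl
    obtain ⟨w, hw3, hw1⟩ := Set.not_subset.mp hnot
    have hw2 : w ∈ C₂ := (h3s hw3).1.resolve_left hw1
    by_cases hz3 : z ∈ C₃
    · exact ⟨C₃, h3, hx3, hz3⟩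
    obtain ⟨C₄, h4s, h4, hz4⟩ := h2.strong_elimination h3 hw2 hw3 hz hz3
    have hnot4 : ¬ C₄ ⊆ C₂ := by
      intro hs
      have h5 : C₄ = C₂ := h4.eq_of_subset_isCircuit h2 hs
      have hw4 : w ∈ C₄ := h5 ▸ hw2
      exact (h4s hw4).2 rfl
    obtain ⟨v, hv4, hv2⟩ := Set.not_subset.mp hnot4
    have hv3 : v ∈ C₃ := (h4s hv4).1.resolve_left hv2
    have hv1 : v ∈ C₁ := (h3s hv3).1.resolve_right hv2
    refine ih C₁ C₄ x z ?_ h1 h4 hx hz4 ⟨v, hv1, hv4⟩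
    have hss : C₁ ∪ C₄ ⊂ C₁ ∪ C₂ := by
      refine ⟨?_, ?_⟩
      · intro g hg
        rcases hg with hg | hg
        · exact Or.inl hg
        · rcases (h4s hg).1 with hg2 | hg3
          · exact Or.inr hg2
          · exact (h3s hg3).1
      · intro hsub
        rcases hsub (Or.inr hw2 : w ∈ C₁ ∪ C₂) with hw | hw
        · exact hw1 hw
        · exact (h4s hw).2 rfl
    have h6 := Set.ncard_lt_ncard hss (Set.toFinite _)
    omega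

theorem sepa {α : Type} [Finite α] (N : Matroid α) {y z : α} (hy : y ∈ N.E) (hz : z ∈ N.E) (hyz : y ≠ z)
    (h : ¬ ∃ C, N.IsCircuit C ∧ y ∈ C ∧ z ∈ C) :
    ∃ S T : Set α, S ∪ T = N.E ∧ Disjoint S T ∧ y ∈ S ∧ z ∈ T ∧ ∀ C, N.IsCircuit C → C ⊆ S ∨ C ⊆ T := by
  refine ⟨{g | g ∈ N.E ∧ (g = y ∨ ∃ C, N.IsCircuit C ∧ y ∈ C ∧ g ∈ C)},
    N.E \ {g | g ∈ N.E ∧ (g = y ∨ ∃ C, N.IsCircuit C ∧ y ∈ C ∧ g ∈ C)},
    Set.union_sdiff_cancel fun g hg => hg.1, Set.disjoint_sdiff_right, ⟨hy, Or.inl rfl⟩, ⟨hz, ?_⟩, ?_⟩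
  · rintro ⟨-, h1 | h1⟩
    · exact hyz h1.symm
    · exact h h1
  · intro C hC
    by_cases h1 : ∃ g ∈ C, g = y ∨ ∃ C', N.IsCircuit C' ∧ y ∈ C' ∧ g ∈ C'
    · left
      obtain ⟨g, hg, h2⟩ := h1
      intro w hw
      refine ⟨hC.subset_ground hw, Or.inr ?_⟩
      rcases h2 with rfl | ⟨C', hC', hyC', hgC'⟩
      · exact ⟨C, hC, hg, hw⟩
      · exact circ_trans_sepa N _ C' C y w le_rfl hC' hC hyC' hw ⟨g, hgC', hg⟩
    · right
      intro w hw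
      exact ⟨hC.subset_ground hw, fun h2 => h1 ⟨w, hw, h2.2⟩⟩

end Pool.Agent.H36.TX
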