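import Pool.Agent.H36.TX.Main
import Pool.Agent.H36.TX.Sepa
import Pool.Agent.H36.TX.Conv
import Pool.Agent.H36.TX.Dual

set_option autoImplicit false

/-!
# [H36 TX Main2] binary matroids with a quad: when they are representable over a field of characteristic other than two
-/

namespace Pool.Agent.H36.TX

open scoped Matroid

/-- `y` and `z` lie on a common circuit of `N` -/
def Joined {α : Type} (N : Matroid α) (y z : α) : Prop := ∃ C, N.IsCircuit C ∧ y ∈ C ∧ z ∈ C

theorem Joined.symm {α : Type} {N : Matroid α} {y z : α} (h : Joined N y z) : Joined N z y := by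
  obtain ⟨C, h1, h2, h3⟩ := h
  exact ⟨C, h1, h3, h2⟩

section

variable {α : Type} [Finite α] (M : Matroid α) {e x y z : α}

theorem del_rep {F W : Type} [Field F] [AddCommGroup W] [Module F W] {w : α → W} (hw : IsRep M F w) (e : α) :
    IsRep (M ＼ {e}) F w := by
  intro J hJ
  rw [Matroid.delete_indep_iff, hw J (fun t ht => (hJ ht).1)]
  constructor
  · exact fun h => h.1
  · intro h
    refine ⟨h, Set.disjoint_singleton_right.2 fun h' => (hJ h').2 rfl⟩

theorem conv_rep {F V W : Type} [Field F] [AddCommGroup V] [Module (ZMod 2) V] [AddCommGroup W] [Module F W]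
    (v : α → V) (hv : IsRep M (ZMod 2) v) (g : V →ₗ[ZMod 2] ZMod 2) (w : α → W) (hw : IsRep (M ＼ {e}) F w)
    (f : W →ₗ[F] F) (hd : Diff4 e x y z) (he : e ∈ M.E) (hx : x ∈ M.E) (hy : y ∈ M.E) (hz : z ∈ M.E)
    (hg : ∀ a ∈ M.E, a ≠ e → a ≠ x → a ≠ y → a ≠ z → g (v a) = 0)
    (hgx : g (v x) = 1) (hgy : g (v y) = 1) (hgz : g (v z) = 1)
    (hf : ∀ a ∈ M.E, a ≠ e → a ≠ x → a ≠ y → a ≠ z → f (w a) = 0)
    (hfx : f (w x) = 1) (hfy : f (w y) = 1) (hfz : f (w z) = 1)
    (hev : v e = v x + v y + v z) (hn : ¬ Joined ((M ＼ {e}) ／ {x}) y z) :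
    Rep M F := by
  classical
  obtain ⟨hex, hey, hez, hxy, hxz, hyz⟩ := hd
  have hxR : x ∈ (M ＼ {e}).E := ⟨hx, fun h => hex h.symm⟩
  have hyR : y ∈ (M ＼ {e}).E := ⟨hy, fun h => hey h.symm⟩
  have hzR : z ∈ (M ＼ {e}).E := ⟨hz, fun h => hez h.symm⟩
  obtain ⟨S, T, hST, hdis, hyS, hzT, hC⟩ := sepa ((M ＼ {e}) ／ {x}) (y := y) (z := z)
    ⟨hyR, fun h => hxy h.symm⟩ ⟨hzR, fun h => hxz h.symm⟩ hyz hn
  have hvR := del_rep M hv e
  have k1 := conv (M ＼ {e}) v hvR g hxR hyR hzR hxy hxz hyz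
    (fun a ha h1 h2 h3 => hg a ha.1 (fun h => ha.2 h) h1 h2 h3) hgx hgy hgz hST hdis hyS hzT hC
  have k2 := conv (M ＼ {e}) w hw f hxR hyR hzR hxy hxz hyz
    (fun a ha h1 h2 h3 => hf a ha.1 (fun h => ha.2 h) h1 h2 h3) hfx hfy hfz hST hdis hyS hzT hC
  have hev' : v e = - v x + v y + v z := by
    have h2 : - v x = v x := by
      rw [neg_eq_iff_add_eq_zero, ← two_smul (ZMod 2) (v x)]
      have : (2 : ZMod 2) = 0 := rfl
      rw [this, zero_smul]
    rw [h2, hev]
  refine ⟨W, inferInstance, inferInstance, Function.update w e (- w x + w y + w z), ?_⟩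
  intro I hI
  have hne : ∀ a ∈ I \ {e}, Function.update w e (- w x + w y + w z) a = w a := fun a ha =>
    Function.update_of_ne (fun h => ha.2 h) _ _
  have hJR : I \ {e} ⊆ (M ＼ {e}).E := fun a ha => ⟨hI ha.1, ha.2⟩
  have hJ : M.Indep (I \ {e}) ↔ LinearIndepOn F (Function.update w e (- w x + w y + w z)) (I \ {e}) := by
    rw [hv _ (fun a ha => hI ha.1), ← hvR _ hJR, hw _ hJR]
    exact (linearIndepOn_congr fun a ha => (hne a ha).symm)
  by_cases heI : e ∈ I
  · have hI' : I = insert e (I \ {e}) := by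
      rw [Set.insert_sdiff_singleton, Set.insert_eq_of_mem heI]
    have hnm : e ∉ I \ {e} := fun h => h.2 rfl
    have him : Function.update w e (- w x + w y + w z) '' (I \ {e}) = w '' (I \ {e}) :=
      Set.image_congr hne
    rw [hI', hv _ (by rw [← hI']; exact hI), linearIndepOn_insert hnm, linearIndepOn_insert hnm, ← hJ,
      hv _ (fun a ha => hI ha.1), him, Function.update_self, hev', k1 _ hJR, k2 _ hJR]
  · have hI' : I \ {e} = I := Set.sdiff_singleton_eq_self heI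
    rw [hI'] at hJ
    exact hJ

/-- a binary matroid with a circuit-cocircuit `{e, x, y, z}`: representability in characteristic other than two -/
theorem quad_iff (hd : Diff4 e x y z) (hM : Rep M (ZMod 2))
    (hC : M.IsCircuit {e, x, y, z}) (hK : M.IsCocircuit {e, x, y, z}) (F : Type) [Field F] (h2 : (2 : F) ≠ 0) :
    Rep M F ↔ Rep (M ＼ {e}) F ∧ ¬ (Joined ((M ＼ {e}) ／ {x}) y z ∧ Joined ((M ＼ {e}) ／ {y}) x z ∧
      Joined ((M ＼ {e}) ／ {z}) x y) := by
  have hE := hC.subset_ground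
  have he : e ∈ M.E := hE (by simp)
  have hx : x ∈ M.E := hE (by simp)
  have hy : y ∈ M.E := hE (by simp)
  have hz : z ∈ M.E := hE (by simp)
  obtain ⟨V, _, _, v0, hv0⟩ := hM
  obtain ⟨v, g, hv, hg⟩ := exists_fun M v0 hv0 hK
  have hge : g (v e) = 1 := by rw [hg e he, if_pos (by simp)]
  have hgx : g (v x) = 1 := by rw [hg x hx, if_pos (by simp)]
  have hgy : g (v y) = 1 := by rw [hg y hy, if_pos (by simp)]
  have hgz : g (v z) = 1 := by rw [hg z hz, if_pos (by simp)]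
  have hg0 : ∀ a ∈ M.E, a ≠ e → a ≠ x → a ≠ y → a ≠ z → g (v a) = 0 := by
    intro a ha h1 h2 h3 h4
    rw [hg a ha, if_neg]
    simp [h1, h2, h3, h4]
  have hev : v e = v x + v y + v z := by
    obtain ⟨a, b, c, ha, hb, hc, h⟩ := coef M v hv hd hC
    have key : ∀ t : ZMod 2, t ≠ 0 → t = 1 := by decide
    rw [h, key a ha, key b hb, key c hc, one_smul, one_smul, one_smul]
  have hd' := hd
  obtain ⟨hex, hey, hez, hxy, hxz, hyz⟩ := hd'
  constructor
  · intro hF
    obtain ⟨W, _, _, w0, hw0⟩ := hF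
    refine ⟨⟨W, inferInstance, inferInstance, w0, del_rep M hw0 e⟩, ?_⟩
    rintro ⟨⟨C3, hC3, h31, h32⟩, ⟨C2, hC2, h21, h22⟩, ⟨C1, hC1, h11, h12⟩⟩
    obtain ⟨w, f, hw, hf⟩ := exists_fun M w0 hw0 hK
    have hfe : f (w e) = 1 := by rw [hf e he, if_pos (by simp)]
    have hfx : f (w x) = 1 := by rw [hf x hx, if_pos (by simp)]
    have hfy : f (w y) = 1 := by rw [hf y hy, if_pos (by simp)]
    have hfz : f (w z) = 1 := by rw [hf z hz, if_pos (by simp)]
    have hf0 : ∀ a ∈ M.E, a ≠ e → a ≠ x → a ≠ y → a ≠ z → f (w a) = 0 := by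
      intro a ha h1 h2 h3 h4
      rw [hf a ha, if_neg]
      simp [h1, h2, h3, h4]
    obtain ⟨a, b, c, -, -, -, h⟩ := coef M w hw hd hC
    have k1 : a + b = 0 := core M v hv w hw g f ⟨hex, hey, hez, hxy, hxz, hyz⟩ he hx hy hz hg0 hge hgx hgy
      hgz hf0 hfe hfx hfy hfz hev h hC1 h11 h12
    have k2 : a + c = 0 := core M v hv w hw g f ⟨hex, hez, hey, hxz, hxy, hyz.symm⟩ he hx hz hy
      (fun a h1 h2 h3 h4 h5 => hg0 a h1 h2 h3 h5 h4) hge hgx hgz hgy
      (fun a h1 h2 h3 h4 h5 => hf0 a h1 h2 h3 h5 h4) hfe hfx hfz hfy (by rw [hev]; abel)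
      (by rw [h]; abel) hC2 h21 h22
    have k3 : b + c = 0 := core M v hv w hw g f ⟨hey, hez, hex, hyz, hxy.symm, hxz.symm⟩ he hy hz hx
      (fun a h1 h2 h3 h4 h5 => hg0 a h1 h2 h5 h3 h4) hge hgy hgz hgx
      (fun a h1 h2 h3 h4 h5 => hf0 a h1 h2 h5 h3 h4) hfe hfy hfz hfx (by rw [hev]; abel)
      (by rw [h]; abel) hC3 h31 h32
    have k4 : a + b + c = 1 := by
      have := congrArg f h
      rw [map_add, map_add, map_smul, map_smul, map_smul, hfe, hfx, hfy, hfz] at this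
      simpa using this.symm
    apply h2
    linear_combination k1 + k2 + k3 - 2 * k4
  · rintro ⟨hF, hn⟩
    obtain ⟨W, _, _, w0, hw0⟩ := hF
    have hT : (M ＼ {e}).IsCocircuit {x, y, z} := by
      have e1 : ({e, x, y, z} : Set α) \ {e} = {x, y, z} := by
        ext t
        simp only [Set.mem_sdiff, Set.mem_insert_iff, Set.mem_singleton_iff]
        constructor
        · rintro ⟨h | h, h'⟩
          · exact absurd h h'
          · exact h
        · intro h
          refine ⟨Or.inr h, ?_⟩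
          rintro rfl
          rcases h with h | h | h
          · exact hex h
          · exact hey h
          · exact hez h
      have := hK.delete_isCocircuit (D := {e}) (by
        refine ⟨by simp, fun h => ?_⟩
        have := h (show x ∈ ({e, x, y, z} : Set α) by simp)
        exact hex (Set.mem_singleton_iff.1 this).symm)
      rwa [e1] at this
    obtain ⟨w, f, hw, hf⟩ := exists_fun (M ＼ {e}) w0 hw0 hT
    have hfx : f (w x) = 1 := by rw [hf x ⟨hx, fun h => hex h.symm⟩, if_pos (by simp)]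
    have hfy : f (w y) = 1 := by rw [hf y ⟨hy, fun h => hey h.symm⟩, if_pos (by simp)]
    have hfz : f (w z) = 1 := by rw [hf z ⟨hz, fun h => hez h.symm⟩, if_pos (by simp)]
    have hf0 : ∀ a ∈ M.E, a ≠ e → a ≠ x → a ≠ y → a ≠ z → f (w a) = 0 := by
      intro a ha h1 h2 h3 h4
      rw [hf a ⟨ha, h1⟩, if_neg]
      simp [h2, h3, h4]
    by_cases n1 : Joined ((M ＼ {e}) ／ {x}) y z
    · by_cases n2 : Joined ((M ＼ {e}) ／ {y}) x z
      · have n3 : ¬ Joined ((M ＼ {e}) ／ {z}) x y := fun n3 => hn ⟨n1, n2, n3⟩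
        exact conv_rep M v hv g w hw f (e := e) (x := z) (y := x) (z := y)
          ⟨hez, hex, hey, hxz.symm, hyz.symm, hxy⟩ he hz hx hy
          (fun a h1 h2 h3 h4 h5 => hg0 a h1 h2 h4 h5 h3) hgz hgx hgy
          (fun a h1 h2 h3 h4 h5 => hf0 a h1 h2 h4 h5 h3) hfz hfx hfy (by rw [hev]; abel) n3
      · exact conv_rep M v hv g w hw f (e := e) (x := y) (y := x) (z := z)
          ⟨hey, hex, hez, hxy.symm, hyz, hxz⟩ he hy hx hz
          (fun a h1 h2 h3 h4 h5 => hg0 a h1 h2 h4 h3 h5) hgy hgx hgz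
          (fun a h1 h2 h3 h4 h5 => hf0 a h1 h2 h4 h3 h5) hfy hfx hfz (by rw [hev]; abel) n2
    · exact conv_rep M v hv g w hw f hd he hx hy hz hg0 hgx hgy hgz hf0 hfx hfy hfz hev n1

end

end Pool.Agent.H36.TX
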