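import Pool.Agent.H36.TX.Top
import Pool.Agent.H2.TE.One

set_option autoImplicit false

/-!
# [H36 TX Seven] 3-connected binary matroids with a quad and at least seven elements (theorem of helper2, H2/TE)
-/

namespace Pool.Agent.H36.TX

open scoped Matroid

theorem to_h2 {α : Type} [Finite α] {M : Matroid α} {F : Type} [Field F] (h : Rep M F) :
    Pool.Agent.H2.TE.Representable F M := by
  obtain ⟨W, _, _, w, hw⟩ := h
  let S := Submodule.span F (Set.range w)
  have hfin : Module.Finite F S := Module.Finite.span_of_finite F (Set.finite_range w)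
  let v : α → S := fun a => ⟨w a, Submodule.subset_span ⟨a, rfl⟩⟩
  have key : ∀ I : Set α, LinearIndepOn F w I ↔ LinearIndepOn F v I := fun I =>
    LinearMap.linearIndependent_iff (v := fun i : I => v i) S.subtype (Submodule.ker_subtype S)
  refine Pool.Agent.H2.TE.rep_fd (V := S) (v := v) ?_
  intro I
  constructor
  · intro hI
    exact ⟨hI.subset_ground, (key I).1 ((hw I hI.subset_ground).1 hI)⟩
  · rintro ⟨h1, h2⟩
    exact (hw I h1).2 ((key I).2 h2)

theorem card4 {α : Type} {e x y z : α} (hd : Diff4 e x y z) : ({e, x, y, z} : Set α).encard = 4 := by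
  obtain ⟨h1, h2, h3, h4, h5, h6⟩ := hd
  rw [Set.encard_insert_of_notMem (by simp [h1, h2, h3]), Set.encard_insert_of_notMem (by simp [h4, h5]),
    Set.encard_pair h6]
  rfl

theorem seven {α : Type} [Finite α] (M : Matroid α) {e x y z : α} (hd : Diff4 e x y z) (hM : Rep M (ZMod 2))
    (hC : M.IsCircuit {e, x, y, z}) (hK : M.IsCocircuit {e, x, y, z}) (h3 : ThreeConn M) (h7 : 7 ≤ M.E.encard)
    (F : Type) [Field F] (h2 : (2 : F) ≠ 0) : ¬ Rep M F := by
  intro hF
  exact (Pool.Agent.H2.TE.partOne (e := e) h3 (to_h2 hM) h7 hC hK (card4 hd) (by simp)).1 F h2 (to_h2 hF)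

end Pool.Agent.H36.TX
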