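import Pool.Agent.H36.TX.Tri
import Pool.Agent.H18.SG.Gr

set_option autoImplicit false

/-!
# [H36 TX Wheel] the cycle matroids of the wheels: regular, 3-connected, with a triad
-/

namespace Pool.Agent.H36.TX

open scoped Matroid
open Pool.Agent.H18.SG (vec linMat linMat_indep gr)

theorem mem_span_of_closure {α F W : Type} [Field F] [AddCommGroup W] [Module F W] {M : Matroid α} {w : α → W}
    (hw : IsRep M F w) {X : Set α} {a : α} (h : a ∈ M.closure X) : w a ∈ Submodule.span F (w '' X) := by
  obtain ⟨I, hI⟩ := M.exists_isBasis' X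
  rw [← hI.closure_eq_closure, hI.indep.mem_closure_iff] at h
  have hle : Submodule.span F (w '' I) ≤ Submodule.span F (w '' X) :=
    Submodule.span_mono (Set.image_mono hI.subset)
  apply hle
  rcases h with h | h
  · by_cases haI : a ∈ I
    · exact Submodule.subset_span ⟨a, haI, rfl⟩
    · by_contra hcon
      exact h.not_indep ((hw _ h.subset_ground).2
        ((linearIndepOn_insert haI).2 ⟨(hw _ hI.indep.subset_ground).1 hI.indep, hcon⟩))
  · exact Submodule.subset_span ⟨a, h, rfl⟩

theorem mem_closure_of_span {α F W : Type} [Field F] [AddCommGroup W] [Module F W] {M : Matroid α} {w : α → W}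
    (hw : IsRep M F w) {X : Set α} {a : α} (ha : a ∈ M.E) (hX : M.Indep X)
    (h : w a ∈ Submodule.span F (w '' X)) : a ∈ M.closure X := by
  rw [hX.mem_closure_iff]
  by_cases haX : a ∈ X
  · exact Or.inr haX
  · left
    have hs : insert a X ⊆ M.E := Set.insert_subset ha hX.subset_ground
    rw [← Matroid.not_indep_iff hs, hw _ hs, linearIndepOn_insert haX]
    exact fun h' => h'.2 h

variable (n : ℕ)

/-- the ends of the edges of the wheel; `none` is a loop, which will be deleted -/
def src : Option (Fin (n + 3) ⊕ Fin (n + 3)) → Option (Fin (n + 3))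
  | none => none
  | some (Sum.inl _) => none
  | some (Sum.inr i) => some i

def tgt : Option (Fin (n + 3) ⊕ Fin (n + 3)) → Option (Fin (n + 3))
  | none => none
  | some (Sum.inl i) => some i
  | some (Sum.inr i) => some (i + 1)

/-- the cycle matroid of the wheel -/
def whl : Matroid (Option (Fin (n + 3) ⊕ Fin (n + 3))) :=
  linMat (ZMod 2) (vec (ZMod 2) (src n) (tgt n)) ＼ {none}

theorem whl_E : (whl n).E = Set.univ \ {none} := rfl

theorem whl_rep (F : Type) [Field F] : IsRep (whl n) F (vec F (src n) (tgt n)) := by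
  intro I hI
  unfold whl
  rw [Matroid.delete_indep_iff, linMat_indep, gr (ZMod 2) F]
  constructor
  · exact fun h => h.1
  · exact fun h => ⟨h, Set.disjoint_singleton_right.2 fun h' => (hI h').2 rfl⟩

theorem one_ne : (1 : Fin (n + 3)) ≠ 0 := by
  intro h
  have := congrArg Fin.val h
  simp at this

theorem succ_ne (i : Fin (n + 3)) : i + 1 ≠ i := by
  intro h
  exact one_ne n (by simpa using h)

theorem two_ne (i : Fin (n + 3)) : i + 1 + 1 ≠ i := by
  intro h
  rw [add_assoc] at h
  have h1 : (1 : Fin (n + 3)) + 1 = 0 := by simpa using h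
  have := congrArg Fin.val h1
  rw [Fin.val_add] at this
  simp [Nat.mod_eq_of_lt] at this

private theorem vec_ap (a : Option (Fin (n + 3) ⊕ Fin (n + 3))) (v : Option (Fin (n + 3))) :
    vec (ZMod 2) (src n) (tgt n) a v =
      (if v = src n a then 1 else 0) - (if v = tgt n a then 1 else 0) := by
  unfold vec
  rw [Pi.sub_apply, Pi.single_apply, Pi.single_apply]

private theorem ap_inl_none (i : Fin (n + 3)) :
    vec (ZMod 2) (src n) (tgt n) (some (Sum.inl i)) none = 1 := by
  rw [vec_ap]
  simp [src, tgt]

private theorem ap_inl_some (i j : Fin (n + 3)) :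
    vec (ZMod 2) (src n) (tgt n) (some (Sum.inl i)) (some j) = if j = i then 1 else 0 := by
  rw [vec_ap]
  by_cases h : j = i
  · simp [src, tgt, h]
  · simp [src, tgt, h]

private theorem ap_inr_none (i : Fin (n + 3)) :
    vec (ZMod 2) (src n) (tgt n) (some (Sum.inr i)) none = 0 := by
  rw [vec_ap]
  simp [src, tgt]

private theorem ap_inr_some (i j : Fin (n + 3)) :
    vec (ZMod 2) (src n) (tgt n) (some (Sum.inr i)) (some j) =
      (if j = i then 1 else 0) - (if j = i + 1 then 1 else 0) := by
  rw [vec_ap]
  simp [src, tgt]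

/-- different elements have different vectors -/
theorem vec_inj (a b : Option (Fin (n + 3) ⊕ Fin (n + 3))) (ha : a ≠ none) (hb : b ≠ none) (hab : a ≠ b) :
    vec (ZMod 2) (src n) (tgt n) a ≠ vec (ZMod 2) (src n) (tgt n) b := by
  intro h
  rcases a with _ | (i | i)
  · exact ha rfl
  · rcases b with _ | (j | j)
    · exact hb rfl
    · have h1 := congrFun h (some i)
      rw [ap_inl_some, ap_inl_some, if_pos rfl] at h1
      by_cases hij : i = j
      · exact hab (by rw [hij])
      · rw [if_neg hij] at h1
        exact absurd h1 (by decide)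
    · have h1 := congrFun h none
      rw [ap_inl_none, ap_inr_none] at h1
      exact absurd h1 (by decide)
  · rcases b with _ | (j | j)
    · exact hb rfl
    · have h1 := congrFun h none
      rw [ap_inl_none, ap_inr_none] at h1
      exact absurd h1 (by decide)
    · have hij : i ≠ j := fun h' => hab (by rw [h'])
      by_cases h2 : i = j + 1
      · have h1 := congrFun h (some (i + 1))
        rw [ap_inr_some, ap_inr_some, if_neg (succ_ne n i), if_pos rfl, h2,
          if_neg (two_ne n j), if_neg (fun h3 => succ_ne n (j + 1) h3)] at h1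
        exact absurd h1 (by decide)
      · have h1 := congrFun h (some i)
        rw [ap_inr_some, ap_inr_some, if_pos rfl, if_neg (fun h3 => succ_ne n i h3.symm),
          if_neg hij, if_neg h2] at h1
        exact absurd h1 (by decide)

theorem vec_ne (a : Option (Fin (n + 3) ⊕ Fin (n + 3))) (ha : a ≠ none) :
    vec (ZMod 2) (src n) (tgt n) a ≠ 0 := by
  intro h
  rcases a with _ | (i | i)
  · exact ha rfl
  · have h1 := congrFun h none
    rw [ap_inl_none, Pi.zero_apply] at h1
    exact absurd h1 (by decide)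
  · have h1 := congrFun h (some i)
    rw [ap_inr_some, if_pos rfl, if_neg (fun h3 => succ_ne n i h3.symm), Pi.zero_apply] at h1
    exact absurd h1 (by decide)

theorem pair (a b : Option (Fin (n + 3) ⊕ Fin (n + 3))) (ha : a ∈ (whl n).E) (hb : b ∈ (whl n).E) (hab : a ≠ b) :
    (whl n).Indep {a, b} := by
  have hs : ({a, b} : Set _) ⊆ (whl n).E := by
    rintro t (rfl | rfl)
    · exact ha
    · exact hb
  have ha' : a ≠ none := fun h => ha.2 h
  have hb' : b ≠ none := fun h => hb.2 h
  rw [whl_rep n (ZMod 2) _ hs, linearIndepOn_insert (by simpa using hab)]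
  refine ⟨(linearIndepOn_singleton_iff _).2 (vec_ne n b hb'), ?_⟩
  rw [Set.image_singleton, Submodule.mem_span_singleton]
  rintro ⟨c, hc⟩
  have key : ∀ t : ZMod 2, t = 0 ∨ t = 1 := by decide
  rcases key c with rfl | rfl
  · rw [zero_smul] at hc
    exact vec_ne n a ha' hc.symm
  · rw [one_smul] at hc
    exact vec_inj n a b ha' hb' hab hc.symm

/-- the relation of a triangle -/
theorem tri (i : Fin (n + 3)) : vec (ZMod 2) (src n) (tgt n) (some (Sum.inl i)) +
    vec (ZMod 2) (src n) (tgt n) (some (Sum.inr i)) = vec (ZMod 2) (src n) (tgt n) (some (Sum.inl (i + 1))) := by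
  unfold vec src tgt
  abel

theorem neg_one_ne : (-1 : Fin (n + 3)) ≠ 0 := by
  intro h
  exact one_ne n (by simpa using h)

theorem neg_one_ne' (i : Fin (n + 3)) (hi : i ≠ -1) : i + 1 ≠ 0 := by
  intro h
  exact hi (eq_neg_of_add_eq_zero_left h)

theorem mem_E (a : Fin (n + 3) ⊕ Fin (n + 3)) : some a ∈ (whl n).E := by
  rw [whl_E]
  exact ⟨Set.mem_univ _, by simp⟩

theorem tri_closure (X : Set (Option (Fin (n + 3) ⊕ Fin (n + 3)))) (a b c : Fin (n + 3) ⊕ Fin (n + 3))
    (hab : a ≠ b)
    (h : vec (ZMod 2) (src n) (tgt n) (some c) ∈ Submodule.span (ZMod 2)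
      (vec (ZMod 2) (src n) (tgt n) '' {some a, some b}))
    (ha : some a ∈ (whl n).closure X) (hb : some b ∈ (whl n).closure X) :
    some c ∈ (whl n).closure X := by
  have hI := pair n (some a) (some b) (mem_E n a) (mem_E n b) (by simpa using hab)
  have h1 := mem_closure_of_span (whl_rep n (ZMod 2)) (mem_E n c) hI h
  have h2 : (whl n).closure {some a, some b} ⊆ (whl n).closure X :=
    Matroid.closure_subset_closure_of_subset_closure (by
      rintro t (rfl | rfl)
      · exact ha
      · exact hb)
  exact h2 h1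

theorem span3 {F W : Type} [Field F] [AddCommGroup W] [Module F W] {α : Type} (w : α → W) (a b c : α)
    (h : w a + w b = w c) : w c ∈ Submodule.span F (w '' {a, b}) ∧ w b ∈ Submodule.span F (w '' {a, c}) ∧
      w a ∈ Submodule.span F (w '' {b, c}) := by
  refine ⟨?_, ?_, ?_⟩
  · rw [← h]
    exact Submodule.add_mem _ (Submodule.subset_span ⟨a, by simp, rfl⟩) (Submodule.subset_span ⟨b, by simp, rfl⟩)
  · have : w b = w c - w a := by rw [← h]; abel
    rw [this]
    exact Submodule.sub_mem _ (Submodule.subset_span ⟨c, by simp, rfl⟩) (Submodule.subset_span ⟨a, by simp, rfl⟩)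
  · have : w a = w c - w b := by rw [← h]; abel
    rw [this]
    exact Submodule.sub_mem _ (Submodule.subset_span ⟨c, by simp, rfl⟩) (Submodule.subset_span ⟨b, by simp, rfl⟩)

/-- the triad of the rim vertex `0` -/
theorem whl_triad : (whl n).IsCocircuit {some (Sum.inl 0), some (Sum.inr 0), some (Sum.inr (-1))} := by
  rw [Matroid.isCocircuit_iff_minimal_compl_nonspanning]
  set K : Set (Option (Fin (n + 3) ⊕ Fin (n + 3))) :=
    {some (Sum.inl 0), some (Sum.inr 0), some (Sum.inr (-1))} with hK
  constructor
  · intro hs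
    have h1 : some (Sum.inl 0) ∈ (whl n).closure ((whl n).E \ K) := by
      rw [hs.closure_eq]
      exact mem_E n _
    have h2 := mem_span_of_closure (whl_rep n (ZMod 2)) h1
    have h3 : Submodule.span (ZMod 2) (vec (ZMod 2) (src n) (tgt n) '' ((whl n).E \ K)) ≤
        LinearMap.ker (LinearMap.proj (some 0) : (Option (Fin (n + 3)) → ZMod 2) →ₗ[ZMod 2] ZMod 2) := by
      rw [Submodule.span_le]
      rintro _ ⟨e, ⟨he, heK⟩, rfl⟩
      show vec (ZMod 2) (src n) (tgt n) e (some 0) = 0
      rcases e with _ | (i | i)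
      · simp [vec, src, tgt]
      · have hi : i ≠ 0 := by
          rintro rfl
          exact heK (by simp [hK])
        have h4 : (some 0 : Option (Fin (n + 3))) ≠ some i := by
          intro h
          exact hi (Option.some.inj h).symm
        simp [vec, src, tgt, Pi.single_apply, hi, hi.symm]
      · have hi : i ≠ 0 := by
          rintro rfl
          exact heK (by simp [hK])
        have hi' : i ≠ -1 := by
          rintro rfl
          exact heK (by simp [hK])
        have h5 := neg_one_ne' n i hi'
        simp [vec, src, tgt, Pi.single_apply, hi.symm, h5.symm]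
    have h4 : vec (ZMod 2) (src n) (tgt n) (some (Sum.inl 0)) (some 0) = 0 := h3 h2
    simp [vec, src, tgt, Pi.single_apply] at h4
  · intro Y hY hYK
    intro k hk
    by_contra hkY
    apply hY
    have hsub : insert k ((whl n).E \ K) ⊆ (whl n).E \ Y := by
      rintro t (rfl | ⟨ht, htK⟩)
      · refine ⟨?_, hkY⟩
        rcases hk with rfl | rfl | rfl <;> exact mem_E n _
      · exact ⟨ht, fun h => htK (hYK h)⟩
    have hE : insert k ((whl n).E \ K) ⊆ (whl n).E := hsub.trans Set.sdiff_subset
    refine Matroid.Spanning.superset ?_ hsub Set.sdiff_subset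
    rw [Matroid.spanning_iff_ground_subset_closure hE]
    set S := (whl n).closure (insert k ((whl n).E \ K)) with hS
    have hsS : insert k ((whl n).E \ K) ⊆ S := Matroid.subset_closure _ _ hE
    have hrest : ∀ t ∈ (whl n).E, t ∉ K → t ∈ S := fun t ht htK => hsS (Or.inr ⟨ht, htK⟩)
    have hl : ∀ i : Fin (n + 3), i ≠ 0 → some (Sum.inl i) ∈ S := by
      intro i hi
      refine hrest _ (mem_E n _) ?_
      simp [hK, hi]
    have t0 := span3 (F := ZMod 2) (vec (ZMod 2) (src n) (tgt n)) _ _ _ (tri n 0)
    have t1 := span3 (F := ZMod 2) (vec (ZMod 2) (src n) (tgt n)) _ _ _ (tri n (-1))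
    rw [zero_add] at t0
    rw [neg_add_cancel] at t1
    have h1 : some (Sum.inl 1) ∈ S := hl 1 (one_ne n)
    have hm : some (Sum.inl (-1)) ∈ S := hl (-1) (neg_one_ne n)
    have hkS : k ∈ S := hsS (Or.inl rfl)
    have h0 : some (Sum.inl 0) ∈ S := by
      rcases hk with rfl | rfl | rfl
      · exact hkS
      · exact tri_closure n _ (Sum.inr 0) (Sum.inl 1) (Sum.inl 0) (by simp) t0.2.2 hkS h1
      · exact tri_closure n _ (Sum.inl (-1)) (Sum.inr (-1)) (Sum.inl 0) (by simp) t1.1 hm hkS
    have h2 : some (Sum.inr 0) ∈ S :=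
      tri_closure n _ (Sum.inl 0) (Sum.inl 1) (Sum.inr 0) (by simpa using (one_ne n).symm) t0.2.1 h0 h1
    have h3 : some (Sum.inr (-1)) ∈ S :=
      tri_closure n _ (Sum.inl (-1)) (Sum.inl 0) (Sum.inr (-1)) (by simpa using neg_one_ne n) t1.2.1 hm h0
    intro t ht
    by_cases htK : t ∈ K
    · rcases htK with rfl | rfl | rfl
      · exact h0
      · exact h2
      · exact h3
    · exact hrest t ht htK

end Pool.Agent.H36.TX
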