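import Pool.Agent.H36.TX.Main2
import Pool.Agent.H36.TX.Wheel
import Pool.Agent.H36.TX.Char2

set_option autoImplicit false

/-!
# [H36 TX Top] summary: the quad theorem, existence from triads and triangles, infinitely many examples
-/

namespace Pool.Agent.H36.TX

open scoped Matroid

theorem regular_del {α : Type} {M : Matroid α} (h : Regular M) (e : α) : Regular (M ＼ {e}) := by
  intro F _
  obtain ⟨W, _, _, w, hw⟩ := h F
  refine ⟨W, inferInstance, inferInstance, w, ?_⟩
  intro J hJ
  rw [Matroid.delete_indep_iff, hw J (fun t ht => (hJ ht).1)]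
  constructor
  · exact fun h => h.1
  · intro h
    refine ⟨h, Set.disjoint_singleton_right.2 fun h' => (hJ h').2 rfl⟩

/-- deletion and contraction are representable over the same fields -/
theorem del_con {α : Type} [Finite α] (M : Matroid α) {e x y z : α} (hd : Diff4 e x y z) (hM : Rep M (ZMod 2))
    (hC : M.IsCircuit {e, x, y, z}) (hK : M.IsCocircuit {e, x, y, z}) (F : Type) [Field F] :
    Rep (M ＼ {e}) F ↔ Rep (M ／ {e}) F := by
  constructor
  · exact exch M hd hM hC hK F
  · intro h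
    have h1 := exch M✶ hd (rep_dual M (ZMod 2) hM) hK.isCircuit (by
      rw [Matroid.dual_isCocircuit_iff]; exact hC) F
    rw [← Matroid.dual_contract, ← Matroid.dual_delete] at h1
    have h2 := h1 (rep_dual _ F h)
    have h3 := rep_dual _ F h2
    rwa [Matroid.dual_dual] at h3

/-- the regular binary matroids with a quad -/
theorem regular_iff {α : Type} [Finite α] (M : Matroid α) {e x y z : α} (hd : Diff4 e x y z) (hM : Rep M (ZMod 2))
    (hC : M.IsCircuit {e, x, y, z}) (hK : M.IsCocircuit {e, x, y, z}) :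
    Regular M ↔ Regular (M ＼ {e}) ∧ ¬ (Joined ((M ＼ {e}) ／ {x}) y z ∧ Joined ((M ＼ {e}) ／ {y}) x z ∧
      Joined ((M ＼ {e}) ／ {z}) x y) := by
  constructor
  · intro h
    exact ⟨regular_del h e, ((quad_iff M hd hM hC hK ℚ two_ne_zero).1 (h ℚ)).2⟩
  · rintro ⟨h1, h2⟩ F _
    by_cases h : (2 : F) = 0
    · exact rep_char2 M hM F h
    · exact (quad_iff M hd hM hC hK F h).2 ⟨h1 F, h2⟩

/-- if `M ＼ {e}` is 3-connected then all pairs are joined -/
theorem joined_of_three {α : Type} [Finite α] (R : Matroid α) {x y z : α} (hx : x ∈ R.E) (hy : y ∈ R.E)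
    (hz : z ∈ R.E) (hxy : x ≠ y) (hxz : x ≠ z) (hyz : y ≠ z) (h3 : ThreeConn R) (h4 : 4 ≤ R.E.encard) :
    Joined (R ／ {x}) y z ∧ Joined (R ／ {y}) x z ∧ Joined (R ／ {z}) x y :=
  ⟨common_circuit R h3 h4 hy hz hx hyz hxy.symm hxz.symm,
    common_circuit R h3 h4 hx hz hy hxz hxy hyz.symm,
    common_circuit R h3 h4 hx hy hz hxy hxz hyz⟩

theorem three_and {α : Type} [Finite α] (M : Matroid α) {e x y z : α} (hd : Diff4 e x y z) (hM : Rep M (ZMod 2))
    (hC : M.IsCircuit {e, x, y, z}) (hK : M.IsCocircuit {e, x, y, z})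
    (h : (ThreeConn (M ＼ {e}) ∧ 4 ≤ (M ＼ {e}).E.encard) ∨ (ThreeConn (M ／ {e}) ∧ 4 ≤ (M ／ {e}).E.encard)) :
    ThreeConn M ∧ ∀ (F : Type) [Field F], (2 : F) ≠ 0 → ¬ Rep M F := by
  rcases h with ⟨h3, h4⟩ | ⟨h3, h4⟩
  · have := quad M hd hM hC hK h3 h4
    exact ⟨this.1, this.2.1⟩
  · have h1 := quad M✶ hd (rep_dual M (ZMod 2) hM) hK.isCircuit (by
      rw [Matroid.dual_isCocircuit_iff]; exact hC) (by
        rw [← Matroid.dual_contract]; exact three_dual _ h3) (by
        rw [← Matroid.dual_contract]; exact h4)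
    refine ⟨?_, ?_⟩
    · have := three_dual _ h1.1
      rwa [Matroid.dual_dual] at this
    · intro F _ h2 hF
      exact h1.2.1 F h2 (rep_dual M F hF)

theorem exists_coext {α : Type} [Finite α] (R : Matroid α) (hR : Rep R (ZMod 2)) (h3 : ThreeConn R)
    (h4 : 4 ≤ R.E.encard) {e x y z : α} (hd : Diff4 e x y z) (he : e ∉ R.E) (hT : R.IsCircuit {x, y, z}) :
    ∃ M : Matroid α, M ／ {e} = R ∧ Rep M (ZMod 2) ∧ M.IsCircuit {e, x, y, z} ∧ M.IsCocircuit {e, x, y, z} := by
  obtain ⟨M, h1, h2, h5, h6⟩ := exists_ext R✶ (rep_dual R _ hR) (three_dual R h3) (by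
    rw [Matroid.dual_ground]; exact h4) hd (by rw [Matroid.dual_ground]; exact he) (by
      rw [Matroid.dual_isCocircuit_iff]; exact hT)
  refine ⟨M✶, ?_, rep_dual M _ h2, h6.isCircuit, ?_⟩
  · rw [← Matroid.dual_delete, h1, Matroid.dual_dual]
  · rw [Matroid.dual_isCocircuit_iff]; exact h5

theorem whl_three (n : ℕ) : ThreeConn (whl n) := by
  have hv := whl_rep n (ZMod 2)
  refine three_of_triangles (whl n) (fun i => some (Sum.inl i)) (fun i => some (Sum.inr i))
    (fun a b h => by simpa using h) (fun a b h => by simpa using h) (fun i j h => by simp at h) ?_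
    (fun a ha b hb hab => pair n a b ha hb hab) ?_
  · rw [whl_E]
    ext a
    rcases a with _ | (i | i)
    · simp
    · simp
    · simp
  · intro i
    have ht := tri n i
    have hne : (some (Sum.inl i) : Option (Fin (n + 3) ⊕ Fin (n + 3))) ≠ some (Sum.inl (i + 1)) := by
      intro h
      exact succ_ne n i (by simpa using h.symm)
    refine ⟨?_, ?_, ?_⟩
    · refine mem_closure_of_span hv (mem_E n _) (pair n _ _ (mem_E n _) (mem_E n _) (by simp)) ?_
      rw [Set.image_pair, Submodule.mem_span_pair]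
      exact ⟨-1, 1, by rw [← ht, neg_one_smul, one_smul]; abel⟩
    · refine mem_closure_of_span hv (mem_E n _) (pair n _ _ (mem_E n _) (mem_E n _) hne) ?_
      rw [Set.image_pair, Submodule.mem_span_pair]
      exact ⟨-1, 1, by rw [← ht, neg_one_smul, one_smul]; abel⟩
    · refine mem_closure_of_span hv (mem_E n _) (pair n _ _ (mem_E n _) (mem_E n _) (by simp)) ?_
      rw [Set.image_pair, Submodule.mem_span_pair]
      exact ⟨1, 1, by rw [← ht]; simp⟩

theorem whl_card (n : ℕ) : (whl n).E.encard = ((2 * (n + 3) : ℕ) : ℕ∞) := by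
  have h1 : (whl n).E = some '' (Set.univ : Set (Fin (n + 3) ⊕ Fin (n + 3))) := by
    rw [whl_E]
    ext a
    rcases a with _ | a
    · simp
    · simp
  rw [h1, (Option.some_injective _).encard_image, Set.encard_univ, ENat.card_eq_coe_fintype_card]
  simp only [Fintype.card_sum, Fintype.card_fin]
  congr 1
  ring

/-- the cycle matroid of a wheel is regular -/
theorem whl_regular (n : ℕ) : Regular (whl n) := fun F _ =>
  ⟨_, inferInstance, inferInstance, _, whl_rep n F⟩

/-- infinitely many answers -/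
theorem examples (n : ℕ) (hn : 3 ≤ n) : ∃ (α : Type) (_ : Finite α) (M : Matroid α) (e : α),
    M.E.encard = ((2 * n + 1 : ℕ) : ℕ∞) ∧ e ∈ M.E ∧ ThreeConn M ∧ Rep M (ZMod 2) ∧ ¬ Regular M ∧
      Regular (M ＼ {e}) ∧ Regular (M ／ {e}) := by
  obtain ⟨k, rfl⟩ : ∃ k, n = k + 3 := ⟨n - 3, by omega⟩
  have h4 : 4 ≤ (whl k).E.encard := by
    rw [whl_card]
    have : 4 ≤ 2 * (k + 3) := by omega
    exact_mod_cast this
  have hd : Diff4 (none : Option (Fin (k + 3) ⊕ Fin (k + 3))) (some (Sum.inl 0)) (some (Sum.inr 0))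
      (some (Sum.inr (-1))) := by
    refine ⟨by simp, by simp, by simp, by simp, by simp, ?_⟩
    intro h
    have h1 : (0 : Fin (k + 3)) = -1 := by simpa using h
    exact neg_one_ne k h1.symm
  have hne : (none : Option (Fin (k + 3) ⊕ Fin (k + 3))) ∉ (whl k).E := fun h => h.2 rfl
  obtain ⟨M, h1, h2, h3, h5⟩ := exists_ext (whl k) (whl_regular k (ZMod 2)) (whl_three k) h4 hd hne (whl_triad k)
  have hreg : Regular (M ＼ {none}) := by
    rw [h1]
    exact whl_regular k
  have h6 := quad M hd h2 h3 h5 (by rw [h1]; exact whl_three k) (by rw [h1]; exact h4)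
  have heM : none ∈ M.E := h3.subset_ground (by simp)
  refine ⟨_, inferInstance, M, none, ?_, heM, h6.1, h2, fun h => h6.2.1 ℚ two_ne_zero (h ℚ), hreg,
    fun F _ => h6.2.2 F (hreg F)⟩
  have h7 : M.E \ {none} = (whl k).E := by
    rw [← h1]
    rfl
  have h8 := Set.encard_sdiff_singleton_add_one heM
  rw [h7, whl_card] at h8
  rw [← h8]
  push_cast
  ring

end Pool.Agent.H36.TX
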