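import Pool.Agent.H36.TX.Defs

set_option autoImplicit false

/-!
# [H36 TX Tri] wheels are 3-connected: the argument with triangles
-/

namespace Pool.Agent.H36.TX

open Matroid

/-- two elements of a triangle, both not the exceptional one, are on the same side -/
theorem tri_side {α : Type} (R : Matroid α) {X Y : Set α} (hXY : X ∪ Y = R.E) {g : α}
    (hbd : ∀ b p q : α, b ∈ R.E → b ∈ R.closure {p, q} →
      ((b ∈ X ∧ p ∈ Y ∧ q ∈ Y) ∨ (b ∈ Y ∧ p ∈ X ∧ q ∈ X)) → b = g)
    {a b c : α} (ha : a ∈ R.E) (hb : b ∈ R.E) (hc : c ∈ R.E) (h1 : a ∈ R.closure {b, c})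
    (h2 : b ∈ R.closure {a, c}) (hag : a ≠ g) (hbg : b ≠ g) (haX : a ∈ X) : b ∈ X := by
  by_contra hbX
  have hbY : b ∈ Y := by
    rw [← hXY] at hb
    exact hb.resolve_left hbX
  by_cases hcX : c ∈ X
  · exact hbg (hbd b a c hb h2 (Or.inr ⟨hbY, haX, hcX⟩))
  · have hcY : c ∈ Y := by
      rw [← hXY] at hc
      exact hc.resolve_left hcX
    exact hag (hbd a b c ha h1 (Or.inl ⟨haX, hbY, hcY⟩))

theorem three_of_triangles {α : Type} [Finite α] (R : Matroid α) {n : ℕ} (s t : Fin (n + 3) → α)
    (hs : Function.Injective s) (ht : Function.Injective t) (hst : ∀ i j, s i ≠ t j)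
    (hE : R.E = Set.range s ∪ Set.range t) (h2 : ∀ a ∈ R.E, ∀ b ∈ R.E, a ≠ b → R.Indep {a, b})
    (h3 : ∀ i, s i ∈ R.closure {t i, s (i + 1)} ∧ t i ∈ R.closure {s i, s (i + 1)} ∧
      s (i + 1) ∈ R.closure {s i, t i}) : ThreeConn R := by
  classical
  intro k hk X Y hXY hdis hX hY
  have hXE : X ⊆ R.E := hXY ▸ Set.subset_union_left
  have hYE : Y ⊆ R.E := hXY ▸ Set.subset_union_right
  have hsE : ∀ i, s i ∈ R.E := fun i => hE ▸ Or.inl ⟨i, rfl⟩
  have htE : ∀ i, t i ∈ R.E := fun i => hE ▸ Or.inr ⟨i, rfl⟩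
  -- the submodular law for the closures
  have hsub : R.eRank + R.eRk (R.closure X ∩ R.closure Y) ≤ R.eRk X + R.eRk Y := by
    have h := R.eRk_inter_add_eRk_union_le (R.closure X) (R.closure Y)
    rw [R.eRk_closure_eq, R.eRk_closure_eq] at h
    have h' : R.eRk (R.closure X ∪ R.closure Y) = R.eRank := by
      refine le_antisymm (R.eRk_le_eRank _) ?_
      rw [← R.eRk_ground, ← hXY]
      exact R.eRk_mono (Set.union_subset_union (R.subset_closure X hXE) (R.subset_closure Y hYE))
    rw [h', add_comm] at h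
    exact h
  refine le_trans (add_le_add le_rfl ?_) hsub
  -- the combinatorial part
  have hcomb : ∀ g : α, (∀ b p q : α, b ∈ R.E → b ∈ R.closure {p, q} →
      ((b ∈ X ∧ p ∈ Y ∧ q ∈ Y) ∨ (b ∈ Y ∧ p ∈ X ∧ q ∈ X)) → b = g) → X ⊆ {g} ∨ Y ⊆ {g} := by
    intro g hbd
    have hss : ∀ i, s i ≠ g → s (i + 1) ≠ g → (s i ∈ X ↔ s (i + 1) ∈ X) := by
      intro i h4 h5
      constructor
      · exact tri_side R hXY hbd (hsE i) (hsE (i + 1)) (htE i)
          (by rw [Set.pair_comm]; exact (h3 i).1) (h3 i).2.2 h4 h5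
      · exact tri_side R hXY hbd (hsE (i + 1)) (hsE i) (htE i) (h3 i).2.2
          (by rw [Set.pair_comm]; exact (h3 i).1) h5 h4
    have hst1 : ∀ i, s i ≠ g → t i ≠ g → (s i ∈ X ↔ t i ∈ X) := by
      intro i h4 h5
      constructor
      · exact tri_side R hXY hbd (hsE i) (htE i) (hsE (i + 1)) (h3 i).1 (h3 i).2.1 h4 h5
      · exact tri_side R hXY hbd (htE i) (hsE i) (hsE (i + 1)) (h3 i).2.1 (h3 i).1 h5 h4
    have hst2 : ∀ i, s (i + 1) ≠ g → t i ≠ g → (s (i + 1) ∈ X ↔ t i ∈ X) := by
      intro i h4 h5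
      constructor
      · exact tri_side R hXY hbd (hsE (i + 1)) (htE i) (hsE i)
          (by rw [Set.pair_comm]; exact (h3 i).2.2) (by rw [Set.pair_comm]; exact (h3 i).2.1) h4 h5
      · exact tri_side R hXY hbd (htE i) (hsE (i + 1)) (hsE i)
          (by rw [Set.pair_comm]; exact (h3 i).2.1) (by rw [Set.pair_comm]; exact (h3 i).2.2) h5 h4
    obtain ⟨j, hj⟩ : ∃ j, ∀ i, s i = g → i = j := by
      by_cases h : ∃ j, s j = g
      · obtain ⟨j, hj⟩ := h
        exact ⟨j, fun i hi => hs (hi.trans hj.symm)⟩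
      · exact ⟨0, fun i hi => absurd ⟨i, hi⟩ h⟩
    have hne : ∀ i, i ≠ j → s i ≠ g := fun i hi h => hi (hj i h)
    have hj1' : j + 1 ≠ j := fun h => by
      have h6 : (1 : Fin (n + 3)) = 0 := by
        have : j + 1 = j + 0 := by rw [h, add_zero]
        exact add_left_cancel this
      simp at h6
    have hj1 : s (j + 1) ≠ g := hne _ hj1'
    have hind : ∀ (m : ℕ) (i : Fin (n + 3)), (i - (j + 1)).val = m → i ≠ j →
        (s i ∈ X ↔ s (j + 1) ∈ X) := by
      intro m
      induction m with
      | zero =>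
        intro i hi _
        have h6 : i - (j + 1) = 0 := Fin.ext hi
        rw [sub_eq_zero.1 h6]
      | succ m ih =>
        intro i hi hij
        have hne0 : i - (j + 1) ≠ 0 := by
          intro h
          rw [h] at hi
          simp at hi
        have hv : ((i - 1) - (j + 1)).val = m := by
          have h6 : (i - 1) - (j + 1) = (i - (j + 1)) - 1 := by abel
          rw [h6]
          have h7 : ((i - (j + 1)) - 1).val = (i - (j + 1)).val - 1 :=
            Fin.val_sub_one_of_ne_zero hne0
          omega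
        have hij' : i - 1 ≠ j := by
          intro h
          apply hne0
          rw [← h]; abel
        have h8 := ih (i - 1) hv hij'
        have h9 := hss (i - 1) (hne _ hij') (by rw [sub_add_cancel]; exact hne i hij)
        rw [sub_add_cancel] at h9
        exact h9.symm.trans h8
    have hS : ∀ i, s i ≠ g → (s i ∈ X ↔ s (j + 1) ∈ X) := by
      intro i hi
      by_cases hij : i = j
      · subst hij
        exact hss i hi hj1
      · exact hind _ i rfl hij
    have hT : ∀ i, t i ≠ g → (t i ∈ X ↔ s (j + 1) ∈ X) := by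
      intro i hi
      by_cases hsi : s i = g
      · have := hj i hsi
        subst this
        exact (hst2 i hj1 hi).symm
      · exact (hst1 i hsi hi).symm.trans (hS i hsi)
    have hA : ∀ a ∈ R.E, a ≠ g → (a ∈ X ↔ s (j + 1) ∈ X) := by
      intro a ha hag
      rw [hE] at ha
      rcases ha with ⟨i, rfl⟩ | ⟨i, rfl⟩
      · exact hS i hag
      · exact hT i hag
    by_cases hjX : s (j + 1) ∈ X
    · right
      intro a ha
      by_contra hag
      exact hdis.notMem_of_mem_left ((hA a (hYE ha) hag).2 hjX) ha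
    · left
      intro a ha
      by_contra hag
      exact hjX ((hA a (hXE ha) hag).1 ha)
  -- elements which are spanned by both sides
  have hbdL : ∀ b p q : α, b ∈ R.E → b ∈ R.closure {p, q} →
      ((b ∈ X ∧ p ∈ Y ∧ q ∈ Y) ∨ (b ∈ Y ∧ p ∈ X ∧ q ∈ X)) →
      b ∈ R.closure X ∩ R.closure Y := by
    intro b p q hb hcl h
    rcases h with ⟨hb', hp, hq⟩ | ⟨hb', hp, hq⟩
    · exact ⟨R.subset_closure X hXE hb', R.closure_subset_closure
        (Set.insert_subset hp (Set.singleton_subset_iff.2 hq)) hcl⟩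
    · exact ⟨R.closure_subset_closure
        (Set.insert_subset hp (Set.singleton_subset_iff.2 hq)) hcl, R.subset_closure Y hYE hb'⟩
  have hs01 : s 0 ≠ s 1 := fun h => by
    have := hs h
    simp at this
  have hLE : R.closure X ∩ R.closure Y ⊆ R.E := Set.inter_subset_left.trans (R.closure_subset_ground _)
  rcases hk with rfl | rfl
  · -- `k = 1`
    obtain ⟨x, hx⟩ : X.Nonempty := by
      rw [← Set.one_le_encard_iff_nonempty]; exact_mod_cast hX
    obtain ⟨y, hy⟩ : Y.Nonempty := by
      rw [← Set.one_le_encard_iff_nonempty]; exact_mod_cast hY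
    have hxy : x ≠ y := fun h => hdis.notMem_of_mem_left hx (h ▸ hy)
    have hL : ∃ b, b ∈ R.closure X ∩ R.closure Y := by
      by_contra hcon
      push Not at hcon
      have h5 : ∀ g : α, X ⊆ {g} ∨ Y ⊆ {g} := fun g =>
        hcomb g fun b p q hb hcl h => absurd (hbdL b p q hb hcl h) (hcon b)
      have hX1 : X ⊆ {x} := by
        rcases h5 x with h | h
        · exact h
        · exact absurd (h hy).symm hxy
      have hY1 : Y ⊆ {y} := by
        rcases h5 y with h | h
        · exact absurd (h hx) hxy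
        · exact h
      have hm : ∀ i, s i = x ∨ s i = y := by
        intro i
        have := hsE i
        rw [← hXY] at this
        exact this.imp (fun h => hX1 h) (fun h => hY1 h)
      have hs02 : s 0 ≠ s 2 := fun h => by
        have := congrArg Fin.val (hs h)
        rw [Fin.val_two] at this
        simp at this
      have hs12 : s 1 ≠ s 2 := fun h => by
        have := congrArg Fin.val (hs h)
        rw [Fin.val_two, Fin.val_one] at this
        simp at this
      rcases hm 0 with h6 | h6 <;> rcases hm 1 with h7 | h7 <;> rcases hm 2 with h8 | h8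
      · exact hs01 (h6.trans h7.symm)
      · exact hs01 (h6.trans h7.symm)
      · exact hs02 (h6.trans h8.symm)
      · exact hs12 (h7.trans h8.symm)
      · exact hs12 (h7.trans h8.symm)
      · exact hs02 (h6.trans h8.symm)
      · exact hs01 (h6.trans h7.symm)
      · exact hs01 (h6.trans h7.symm)
    obtain ⟨b, hb⟩ := hL
    have hbE : b ∈ R.E := hLE hb
    obtain ⟨a, ha, hab⟩ : ∃ a ∈ R.E, a ≠ b := by
      by_cases h : s 0 = b
      · exact ⟨s 1, hsE 1, fun h' => hs01 (h.trans h'.symm)⟩
      · exact ⟨s 0, hsE 0, h⟩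
    have hi : R.Indep {b} := (h2 a ha b hbE hab).subset (by simp)
    have h9 : R.eRk {b} = 1 := by rw [hi.eRk_eq_encard, Set.encard_singleton]
    rw [Nat.cast_one, ← h9]
    exact R.eRk_mono (Set.singleton_subset_iff.2 hb)
  · -- `k = 2`
    have hL : ∃ b b', b ∈ R.closure X ∩ R.closure Y ∧ b' ∈ R.closure X ∩ R.closure Y ∧ b ≠ b' := by
      by_contra hcon
      push Not at hcon
      obtain ⟨g, hg⟩ : ∃ g : α, ∀ b ∈ R.closure X ∩ R.closure Y, b = g := by
        by_cases h : ∃ b, b ∈ R.closure X ∩ R.closure Y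
        · obtain ⟨b, hb⟩ := h
          exact ⟨b, fun b' hb' => hcon b' b hb' hb⟩
        · exact ⟨s 0, fun b hb => absurd ⟨b, hb⟩ h⟩
      have h5 := hcomb g fun b p q hb hcl h => hg b (hbdL b p q hb hcl h)
      rcases h5 with h | h
      · have := (hX.trans (Set.encard_le_encard h))
        rw [Set.encard_singleton] at this
        norm_num at this
      · have := (hY.trans (Set.encard_le_encard h))
        rw [Set.encard_singleton] at this
        norm_num at this
    obtain ⟨b, b', hb, hb', hne⟩ := hL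
    have hi : R.Indep {b, b'} := h2 b (hLE hb) b' (hLE hb') hne
    have h9 : R.eRk {b, b'} = 2 := by rw [hi.eRk_eq_encard, Set.encard_pair hne]
    rw [Nat.cast_ofNat, ← h9]
    exact R.eRk_mono (Set.insert_subset hb (Set.singleton_subset_iff.2 hb'))

end Pool.Agent.H36.TX
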